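import Pool.Agent.Lib.MP_4952d6_mp.Po.N34

/-!
# Density matrix: the lower bound for the energy with a general symbol

As `main_lower`, `ow_statement`, `ol_of`, for a symbol `E` between `7/8 k²` and `9/8 k²`, even, with `∑ th² E(p+n) ≤ E p + 150 M²`.
-/

set_option autoImplicit false
set_option linter.unusedSectionVars false
set_option linter.unusedVariables false
open MeasureTheory Function Filter Topology Set ComplexConjugate
open scoped ENNReal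

namespace Pool.Agent.Lib.MP_4952d6_mp.O

open LB

/-- Symbols close to `ksq`. -/
structure Sym (E : (Fin 3 → ℤ) → ℝ) : Prop where
  ge : ∀ p, 7 / 8 * ksq p ≤ E p
  le : ∀ p, E p ≤ 9 / 8 * ksq p
  neg : ∀ p, E (-p) = E p
  avg : ∀ M : ℕ, 1 ≤ M → ∀ p, ∑ n ∈ bx M, th M n ^ 2 * E (p + n) ≤ E p + 150 * (M : ℝ) ^ 2

lemma Sym.nonneg {E : (Fin 3 → ℤ) → ℝ} (h : Sym E) (p : Fin 3 → ℤ) : 0 ≤ E p := by
  have h1 := h.ge p
  have h2 := ksq_nonneg p
  linarith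

lemma Sym.pos {E : (Fin 3 → ℤ) → ℝ} (h : Sym E) {p : Fin 3 → ℤ} (hp : p ≠ 0) : 0 < E p := by
  have h1 := h.ge p
  have h2 := ksq_pos hp
  linarith

/-- The lattice sum. -/
noncomputable def LSg (t l : ℝ) (E : (Fin 3 → ℤ) → ℝ) : ℝ :=
  ∑' p : Fin 3 → ℤ, if p = 0 then 0 else
    et t p ^ 2 * (epsf (8 * Real.pi / l ^ 2) (E p) - E p - 8 * Real.pi / l ^ 2)

theorem Sym.summable {ι : Type*} [Fintype ι] [DecidableEq ι] {E : (Fin 3 → ℤ) → ℝ} (h : Sym E) {t : ℝ}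
    (ht : 0 < t) (f : HS ι) :
    Summable fun p => et t p ^ 2 * E p * nk f p := by
  have hnk : ∀ p, 0 ≤ nk f p := fun p => Finset.sum_nonneg fun j _ => by positivity
  refine Summable.of_nonneg_of_le (fun p => ?_) (fun p => ?_) ((summable_nk f).mul_left (9 / 8 / t))
  · have h1 := h.nonneg p
    have h2 := hnk p
    have h3 : 0 ≤ et t p ^ 2 := by positivity
    positivity
  · have h1 := h.le p
    have h2 := hnk p
    have hk := ksq_nonneg p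
    have h4 : et t p ^ 2 * ksq p ≤ 1 / t := by
      rw [Mul_et_sq, le_div_iff₀ ht]
      have h5 := Real.add_one_le_exp (t * ksq p)
      have h6 : Real.exp (-(t * ksq p)) * Real.exp (t * ksq p) = 1 := by
        rw [← Real.exp_add]; simp
      have h7 : 0 < Real.exp (-(t * ksq p)) := Real.exp_pos _
      nlinarith
    have h3 : 0 ≤ et t p ^ 2 := by positivity
    calc et t p ^ 2 * E p * nk f p ≤ et t p ^ 2 * (9 / 8 * ksq p) * nk f p := by
          gcongr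
      _ = 9 / 8 * (et t p ^ 2 * ksq p) * nk f p := by ring
      _ ≤ 9 / 8 * (1 / t) * nk f p := by gcongr
      _ = 9 / 8 / t * nk f p := by ring

section
variable {u a l : ℝ} {N M M' : ℕ} {K : Finset (Fin 3 → ℤ)}

theorem main_lower_gen (h : PO u a l N M M' K) (hu : u ≤ 1 / 10) {E : (Fin 3 → ℤ) → ℝ}
    (hS : Sym E) :
    1 / 2 * LSg (l ^ 2 * u ^ 16) l E + 4 * Real.pi / l ^ 2 * ∑' p, et (l ^ 2 * u ^ 16) p ^ 2
        - 1000000000 * u / l ^ 5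
      ≤ 1 / 2 * ∑ k ∈ K, e2 (l ^ 2 * u ^ 16) M k
        * (epsf (8 * Real.pi * a * (1 - u ^ 39) * N) (E k) - E k) := by
  classical
  have hu0 := h.u0
  have hl0 := h.l0
  have hlu := h.lu
  have hu1 : u ≤ 1 := by linarith
  set t : ℝ := l ^ 2 * u ^ 16 with ht
  have ht0 : 0 < t := by positivity
  set G : ℝ := 8 * Real.pi / l ^ 2 with hG
  have hpi := Real.pi_pos
  have hG0 : 0 < G := by positivity
  have hG26 : G ≤ 26 / l ^ 2 := by
    rw [hG]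
    apply div_le_div_of_nonneg_right _ (by positivity)
    linarith [Real.pi_lt_d2]
  have hu39 : 0 < u ^ 39 := by positivity
  have hu39' : u ^ 39 ≤ 1 := pow_le_one₀ hu0.le hu1
  have hGG : 8 * Real.pi * a * (1 - u ^ 39) * N = G * (1 - u ^ 39) := by
    have h1 := PO_aN h
    calc 8 * Real.pi * a * (1 - u ^ 39) * N = 8 * Real.pi * (1 - u ^ 39) * (a * N) := by ring
      _ = G * (1 - u ^ 39) := by rw [h1, hG]; ring
  rw [hGG]
  set G' : ℝ := G * (1 - u ^ 39) with hG'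
  have hG'0 : 0 ≤ G' := mul_nonneg hG0.le (by linarith)
  have hG'G : G' ≤ G := by
    rw [hG']
    nlinarith
  set L2 : ℝ := 1 / l ^ 2 with hL2
  have hL20 : 0 < L2 := by positivity
  have hG26' : G ≤ 26 * L2 := by
    have h26 : 26 / l ^ 2 = 26 * L2 := by rw [hL2]; ring
    rw [← h26]
    exact hG26
  -- pointwise
  have hpt : ∀ k ∈ K, et t k ^ 2 * (epsf G (E k) - E k - G) + G * et t k ^ 2
      - (u ^ 39 + 120 * u ^ 80) * (26 * L2)
      ≤ e2 t M k * (epsf G' (E k) - E k) := by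
    intro k hk
    have hE : 0 < E k := hS.pos (PO_ne h hk)
    have h1 := epsf_ge hG'0 hE.le
    have h2 := epsf_le hG'0 hE.le
    have h3 := epsf_sub_le hG'0 hG'G hE
    have h4 := e2_ge ht0 h.M1 k
    have h5 := PO_tM h
    rw [← ht] at h5
    have h6 : et t k ^ 2 ≤ 1 := by
      have := Mul_one_sub_et_sq_nonneg ht0.le k
      linarith
    have h7 : 0 < et t k ^ 2 := pow_pos (et_pos t k) 2
    set D : ℝ := epsf G' (E k) - E k with hD
    have hD0 : 0 ≤ D := by rw [hD]; linarith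
    have hD1 : D ≤ 26 * L2 := by rw [hD]; linarith
    have h8 : et t k ^ 2 * (1 - t * (120 * (M : ℝ) ^ 2)) * D ≤ e2 t M k * D :=
      mul_le_mul_of_nonneg_right h4 hD0
    have h9 : t * (120 * (M : ℝ) ^ 2) ≤ 120 * u ^ 80 := by
      have : t * (120 * (M : ℝ) ^ 2) = 120 * (t * (M : ℝ) ^ 2) := by ring
      rw [this]; linarith
    have h9' : 0 ≤ t * (120 * (M : ℝ) ^ 2) := by positivity
    have h10 : et t k ^ 2 * (t * (120 * (M : ℝ) ^ 2)) * D ≤ 120 * u ^ 80 * (26 * L2) := by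
      have h11 : et t k ^ 2 * (t * (120 * (M : ℝ) ^ 2)) ≤ 1 * (120 * u ^ 80) :=
        mul_le_mul h6 h9 h9' zero_le_one
      rw [one_mul] at h11
      exact mul_le_mul h11 hD1 hD0 (by positivity)
    have h12 : epsf G (E k) - E k ≤ D + G * u ^ 39 := by
      have : G - G' = G * u ^ 39 := by rw [hG']; ring
      rw [hD]; linarith
    have h13 : et t k ^ 2 * (epsf G (E k) - E k) ≤ et t k ^ 2 * (D + G * u ^ 39) :=
      mul_le_mul_of_nonneg_left h12 h7.le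
    have h14 : et t k ^ 2 * (G * u ^ 39) ≤ 1 * (26 * L2 * u ^ 39) :=
      mul_le_mul h6 (mul_le_mul_of_nonneg_right hG26' hu39.le) (by positivity) zero_le_one
    have h15 : et t k ^ 2 * (1 - t * (120 * (M : ℝ) ^ 2)) * D
        = et t k ^ 2 * D - et t k ^ 2 * (t * (120 * (M : ℝ) ^ 2)) * D := by ring
    have h16 : et t k ^ 2 * (D + G * u ^ 39) = et t k ^ 2 * D + et t k ^ 2 * (G * u ^ 39) := by ring
    have h17 : et t k ^ 2 * (epsf G (E k) - E k - G) + G * et t k ^ 2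
        = et t k ^ 2 * (epsf G (E k) - E k) := by ring
    rw [h17]
    rw [h15] at h8
    rw [h16] at h13
    have h18 : (u ^ 39 + 120 * u ^ 80) * (26 * L2)
        = 1 * (26 * L2 * u ^ 39) + 120 * u ^ 80 * (26 * L2) := by ring
    rw [h18]
    linarith
  have hsum := Finset.sum_le_sum hpt
  rw [Finset.sum_sub_distrib, Finset.sum_add_distrib, ← Finset.mul_sum, Finset.sum_const,
    nsmul_eq_mul] at hsum
  -- cardinality
  have hcard := PO_card h hu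
  have hc : (K.card : ℝ) * ((u ^ 39 + 120 * u ^ 80) * (26 * L2)) ≤ 2 * u / l ^ 5 := by
    have h1 : (K.card : ℝ) * ((u ^ 39 + 120 * u ^ 80) * (26 * L2))
        ≤ 27 / (u ^ 30 * l ^ 3) * ((u ^ 39 + 120 * u ^ 80) * (26 * L2)) :=
      mul_le_mul_of_nonneg_right hcard (by positivity)
    have h2 : 27 / (u ^ 30 * l ^ 3) * ((u ^ 39 + 120 * u ^ 80) * (26 * L2))
        = 702 * (u ^ 9 + 120 * u ^ 50) / l ^ 5 := by
      rw [hL2]
      field_simp
      ring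
    rw [h2] at h1
    refine h1.trans ?_
    apply div_le_div_of_nonneg_right _ (by positivity)
    have h3 : u ^ 8 ≤ (1 / 10) ^ 8 := pow_le_pow_left₀ hu0.le hu 8
    have h4 : u ^ 49 ≤ (1 / 10) ^ 49 := pow_le_pow_left₀ hu0.le hu 49
    have h5 : u ^ 9 = u ^ 8 * u := by ring
    have h6 : u ^ 50 = u ^ 49 * u := by ring
    rw [h5, h6]
    have h7 : u ^ 8 * u ≤ (1 / 10) ^ 8 * u := mul_le_mul_of_nonneg_right h3 hu0.le
    have h8 : u ^ 49 * u ≤ (1 / 10) ^ 49 * u := mul_le_mul_of_nonneg_right h4 hu0.le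
    have h9 : (1 / 10 : ℝ) ^ 8 * u + 120 * ((1 / 10 : ℝ) ^ 49 * u) ≤ 1 / 702 * u := by
      have : (1 / 10 : ℝ) ^ 8 + 120 * (1 / 10 : ℝ) ^ 49 ≤ 1 / 702 := by norm_num
      nlinarith
    linarith
  -- the lattice sum
  have hLS : LSg t l E ≤ ∑ k ∈ K, et t k ^ 2 * (epsf G (E k) - E k - G) := by
    unfold LSg
    rw [← hG]
    set F : (Fin 3 → ℤ) → ℝ := fun p => if p = 0 then 0 else
      et t p ^ 2 * (epsf G (E p) - E p - G) with hF
    have hF0 : ∀ p, 0 ≤ -F p := by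
      intro p
      simp only [hF]
      split_ifs with hp
      · simp
      · have hE := hS.nonneg p
        have h2 := epsf_le hG0.le hE
        have h7 : 0 ≤ et t p ^ 2 := sq_nonneg _
        nlinarith [mul_nonneg h7 (show 0 ≤ -(epsf G (E p) - E p - G) by linarith)]
    have hFle : ∀ p, -F p ≤ G * et t p ^ 2 := by
      intro p
      simp only [hF]
      have h7 : 0 ≤ et t p ^ 2 := sq_nonneg _
      split_ifs with hp
      · simp only [neg_zero]; positivity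
      · have hE := hS.nonneg p
        have h2 := epsf_ge hG0.le hE
        have h3 : et t p ^ 2 * (E p - epsf G (E p)) ≤ 0 :=
          mul_nonpos_of_nonneg_of_nonpos h7 (by linarith)
        linarith
    have hFs : Summable fun p => -F p :=
      Summable.of_nonneg_of_le hF0 hFle ((summable_et_sq ht0).mul_left G)
    have h3 := hFs.sum_le_tsum K (fun p _ => hF0 p)
    rw [tsum_neg, Finset.sum_neg_distrib] at h3
    have h4 : ∑ k ∈ K, F k = ∑ k ∈ K, et t k ^ 2 * (epsf G (E k) - E k - G) := by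
      refine Finset.sum_congr rfl fun k hk => ?_
      simp only [hF]
      rw [if_neg (PO_ne h hk)]
    rw [h4] at h3
    linarith
  -- the tail
  have htl := tail_et h hu
  rw [← ht] at htl
  have hG2 : 4 * Real.pi / l ^ 2 = G / 2 := by rw [hG]; ring
  rw [hG2]
  have htl2 : G * (∑' p, et t p ^ 2 - ∑ k ∈ K, et t k ^ 2) ≤ 520000000 * u / l ^ 5 := by
    calc G * (∑' p, et t p ^ 2 - ∑ k ∈ K, et t k ^ 2) ≤ G * (20000000 * u / l ^ 3) :=
          mul_le_mul_of_nonneg_left htl hG0.le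
      _ ≤ 26 / l ^ 2 * (20000000 * u / l ^ 3) := mul_le_mul_of_nonneg_right hG26 (by positivity)
      _ = 520000000 * u / l ^ 5 := by
          field_simp
          norm_num
  have hfin : 1 / 2 * (2 * u / l ^ 5) + 1 / 2 * (520000000 * u / l ^ 5) ≤ 1000000000 * u / l ^ 5 := by
    have h1 : 1 / 2 * (2 * u / l ^ 5) + 1 / 2 * (520000000 * u / l ^ 5) = 260000001 * u / l ^ 5 := by
      ring
    rw [h1]
    apply div_le_div_of_nonneg_right _ (by positivity)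
    linarith
  have hGe : G * (∑' p, et t p ^ 2 - ∑ k ∈ K, et t k ^ 2)
      = G * (∑' p, et t p ^ 2) - G * ∑ k ∈ K, et t k ^ 2 := by ring
  rw [hGe] at htl2
  linarith

end

/-- **Part B** for a general symbol. -/
theorem ow_gen : ∃ u₀ : ℝ, 0 < u₀ ∧ ∀ u : ℝ, 0 < u → u < u₀ →
    ∃ a₀ : ℝ, 0 < a₀ ∧ ∀ (N : ℕ) (a : ℝ), 0 < a → a < a₀ → (N : ℝ) * a ^ 3 = u ^ 320 →
      ∀ E : (Fin 3 → ℤ) → ℝ, Sym E →
      ∀ ψ : HS (Fin N), ‖ψ‖ = 1 →
      1 / 2 * LSg ((a / u ^ 152) ^ 2) (a / u ^ 160) E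
        + 4 * Real.pi * a * N * (∑' p : Fin 3 → ℤ, et ((a / u ^ 152) ^ 2) p ^ 2)
        - 2000000000 * u * (N ^ 2 * a * u ^ 160 + N * a * Db ((a / u ^ 160) ^ 2) ψ)
        ≤ (∑' p, et ((a / u ^ 152) ^ 2) p ^ 2 * E p * nk ψ p)
          + 4 * Real.pi * a * (∑' p, gO u (a / u ^ 160) p * Real.exp (-(a ^ 2 * ksq p))
            * Rsq ((a / u ^ 152) ^ 2) ψ p)
          + u ^ 6 * a * VV ((a / u ^ 160) ^ 2 / u ^ 3 / 2) ψ := by
  refine ⟨1 / 10, by norm_num, fun u hu hlt => ?_⟩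
  have hu10 : u ≤ 1 / 10 := hlt.le
  have hu1 : u ≤ 1 := by linarith
  obtain ⟨a₀, ha₀, hPO⟩ := exists_PO hu hu10
  refine ⟨a₀, ha₀, fun N a ha haa hNa E hS ψ hψ => ?_⟩
  obtain ⟨M, M', K, h⟩ := hPO N a ha haa hNa
  have hpi := Real.pi_pos
  set l : ℝ := a / u ^ 160 with hl
  have hl0 : 0 < l := h.l0
  have et1 : (a / u ^ 152) ^ 2 = l ^ 2 * u ^ 16 := by rw [hl]; field_simp
  rw [et1]
  have ht : 0 < l ^ 2 * u ^ 16 := by positivity
  have hX := PO_X h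
  have hNa2 := PO_aN h
  have hM1 := h.M1
  have hN1 : 1 ≤ Fintype.card (Fin N) := by rw [Fintype.card_fin]; exact PO_N h
  have hM0 : (0:ℝ) < M := by exact_mod_cast hM1
  have h39 : u ^ 39 ≤ 1 := pow_le_one₀ hu.le hu1
  have hMN : 2 * (M : ℝ) ^ 3 ≤ u ^ 32 * (Fintype.card (Fin N) : ℝ) := by
    rw [Fintype.card_fin]; exact PO_MN h hu10
  have htM : 2 * Real.pi ^ 2 * (l ^ 2 * u ^ 16) * (M : ℝ) ^ 2 ≤ 1 := by
    have h1 := PO_tM h
    have h2 : Real.pi ^ 2 ≤ 10 := by nlinarith [Real.pi_lt_d2]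
    have h3 : u ^ 80 ≤ (1 / 10) ^ 80 := pow_le_pow_left₀ hu.le hu10 80
    have h4 : (20 : ℝ) * (1 / 10) ^ 80 ≤ 1 := by norm_num
    calc 2 * Real.pi ^ 2 * (l ^ 2 * u ^ 16) * (M : ℝ) ^ 2
        = 2 * Real.pi ^ 2 * (l ^ 2 * u ^ 16 * (M : ℝ) ^ 2) := by ring
      _ ≤ 2 * 10 * u ^ 80 := by gcongr
      _ ≤ 20 * (1 / 10) ^ 80 := by linarith
      _ ≤ 1 := h4
  have hg : 0 ≤ 8 * Real.pi * a * (1 - u ^ 39) := mul_nonneg (by positivity) (by linarith)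
  have hEm : ∀ k ∈ K, E k ≤ 2 / (u ^ 20 * l ^ 2) := fun k hk => by
    have h1 := (h.Kd k).1 hk
    have h2 := hS.le k
    calc E k ≤ 9 / 8 * ksq k := h2
      _ ≤ 9 / 8 * (1 / (u ^ 20 * l ^ 2)) := by linarith [h1.2]
      _ ≤ 2 * (1 / (u ^ 20 * l ^ 2)) := by
        refine mul_le_mul_of_nonneg_right (by norm_num) (by positivity)
      _ = _ := by ring
  have key := ow_explicit ht hM1 hN1 (s := u ^ 32) (by positivity) (pow_le_one₀ hu.le hu1) hMN htM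
    (w0 := u ^ 31) (by positivity) hg (PO_K h hu10) (E := E)
    (fun p => hS.nonneg p) (fun k hk => hS.pos (PO_ne h hk))
    (show (0:ℝ) ≤ 2 / (u ^ 20 * l ^ 2) by positivity) hEm
    (fun p => hS.neg p) (CE := 150 * (M : ℝ) ^ 2) (by positivity)
    (fun p => hS.avg M hM1 p) ψ hψ (hS.summable ht ψ)
  rw [Fintype.card_fin] at key
  have k2 := main_lower_gen h hu10 hS
  have k3 := ErrW_le h hu10 ψ hψ
  have k4 := rsq_upper h hu10 ψ hψ
  have hD : 0 ≤ Db (l ^ 2) (ψ : (Fin N → T3) → ℂ) := WJ2_Db_nonneg (sq_nonneg _) ψ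
  have hV := WJ3_VV_nonneg (l ^ 2 / u ^ 3 / 2) (ψ : (Fin N → T3) → ℂ)
  have e1 : 4 * Real.pi * a * N = 4 * Real.pi / l ^ 2 := by
    calc 4 * Real.pi * a * N = 4 * Real.pi * (a * N) := by ring
      _ = _ := by rw [hNa2]; ring
  have e2 : (N : ℝ) * a = 1 / l ^ 2 := by rw [mul_comm]; exact hNa2
  rw [e1, hX, e2]
  have e3 : Db (l ^ 2) (ψ : (Fin N → T3) → ℂ) / l ^ 2
      = 1 / l ^ 2 * Db (l ^ 2) (ψ : (Fin N → T3) → ℂ) := by ring
  rw [e3] at k3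
  have hX0 : 0 ≤ u * (1 / l ^ 5) := by positivity
  have hQ0 : 0 ≤ u * (1 / l ^ 2 * Db (l ^ 2) (ψ : (Fin N → T3) → ℂ)) := by positivity
  have hV0 : 0 ≤ u ^ 6 * a * VV (l ^ 2 / u ^ 3 / 2) (ψ : (Fin N → T3) → ℂ) := by positivity
  have e4 : 1000000000 * u / l ^ 5 = 1000000000 * (u * (1 / l ^ 5)) := by ring
  rw [e4] at k2
  have e5 : 2000 * u * (1 / l ^ 5 + 1 / l ^ 2 * Db (l ^ 2) (ψ : (Fin N → T3) → ℂ))
      = 2000 * (u * (1 / l ^ 5)) + 2000 * (u * (1 / l ^ 2 * Db (l ^ 2) (ψ : (Fin N → T3) → ℂ))) := by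
    ring
  rw [e5] at k3
  have e6 : 2000000000 * u * (1 / l ^ 5 + 1 / l ^ 2 * Db (l ^ 2) (ψ : (Fin N → T3) → ℂ))
      = 2000000000 * (u * (1 / l ^ 5))
        + 2000000000 * (u * (1 / l ^ 2 * Db (l ^ 2) (ψ : (Fin N → T3) → ℂ))) := by ring
  rw [e6]
  linarith

/-- **Lower bound** for the energy on the torus, general symbol. -/
theorem ol_gen (θ CM : ℝ) : ∃ C u₀ : ℝ, 0 ≤ C ∧ 0 < u₀ ∧
    ∀ u : ℝ, 0 < u → u < u₀ → ∃ a₀ : ℝ, 0 < a₀ ∧
    ∀ (N : ℕ) (W f Q : ℝ → ℝ) (R₀ R a : ℝ), Scat W R₀ R a f Q → a < a₀ →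
      (N : ℝ) * a ^ 3 = u ^ 320 → R ≤ θ * a →
      ∀ 𝒱 : T3 → ℝ≥0∞, (∀ᵐ y ∂lam3, ENNReal.ofReal (2 * W (rr y)) ≤ 𝒱 y) →
      ∀ ψ : (Fin N → T3) → ℂ, tAdm R₀ 𝒱 ψ →
      LocO CM u ((a / u ^ 152) ^ 2) ((a / u ^ 160) ^ 2 / u ^ 3) ((a / u ^ 160) ^ 2) ψ →
      ∀ E : (Fin 3 → ℤ) → ℝ, Sym E → (∀ p, |E p - ksq p| ≤ 8 * Real.pi * (N * a)) →
      ENNReal.ofReal (4 * Real.pi * N ^ 2 * a
        + 4 * Real.sqrt Real.pi / u ^ 8 * (N ^ 2 * a * u ^ 160)
        + 1 / 2 * LSg ((a / u ^ 152) ^ 2) (a / u ^ 160) E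
        - C * u * (N ^ 2 * a * u ^ 160 + N * a * Db ((a / u ^ 160) ^ 2) ψ)
        - Dm (fun p => E p - ksq p) ψ) ≤ tE 𝒱 ψ := by
  obtain ⟨Cc, hCc, hC'⟩ := oc_statement
  have hθ0 : 0 ≤ max θ 0 := le_max_right _ _
  have hM0 : 0 ≤ max CM 0 := le_max_right _ _
  obtain ⟨C1, u1, hC1, hu1, hE'⟩ := oe_statement (max θ 0) (max CM 0) Cc hθ0 hM0 hCc
  obtain ⟨u2, hu2, hW'⟩ := ow_gen
  refine ⟨C1 + 2000000000, min u1 u2, by positivity, lt_min hu1 hu2, fun u hu hlt => ?_⟩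
  obtain ⟨a1, ha1, hE''⟩ := hE' u hu (hlt.trans_le (min_le_left _ _))
  obtain ⟨a2, ha2, hW''⟩ := hW' u hu (hlt.trans_le (min_le_right _ _))
  refine ⟨min (min a1 a2) (1 / (8 * (max θ 0 + 1))), lt_min (lt_min ha1 ha2) (by positivity), ?_⟩
  intro N W f Q R₀ R a hsc haa hNa hRθ 𝒱 h𝒱 ψ hψ hLoc E hS hφb
  have ha := hsc.a_pos
  have hpi := Real.pi_pos
  have haa1 : a < a1 := haa.trans_le ((min_le_left _ _).trans (min_le_left _ _))
  have haa2 : a < a2 := haa.trans_le ((min_le_left _ _).trans (min_le_right _ _))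
  have haa3 : a < 1 / (8 * (max θ 0 + 1)) := haa.trans_le (min_le_right _ _)
  have hR0 : 0 ≤ R := hsc.R_pos.le
  have hRθ' : R ≤ max θ 0 * a := hRθ.trans (mul_le_mul_of_nonneg_right (le_max_left _ _) ha.le)
  have hR8 : R ≤ 1 / 8 := by
    refine hRθ'.trans ?_
    have h1 : a * (8 * (max θ 0 + 1)) < 1 := by
      rwa [lt_div_iff₀ (by positivity)] at haa3
    linarith
  obtain ⟨h, k, w, hD⟩ := hC' W f Q R₀ R a hsc hR8 (u ^ 161) (by positivity)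
  set Ψ : HS (Fin N) := hψ.1.toLp ψ with hΨ
  have hΨ1 : ‖Ψ‖ = 1 := norm_toLp_one hψ.1 hψ.2.1
  have hae : ψ =ᵐ[piN (Fin N)] (Ψ : (Fin N → T3) → ℂ) := hψ.1.coeFn_toLp.symm
  have hkin := (kin_sum hψ).1
  rw [← hΨ] at hkin
  set t : ℝ := (a / u ^ 152) ^ 2 with ht
  set T : ℝ := (a / u ^ 160) ^ 2 / u ^ 3 with hT
  set l : ℝ := a / u ^ 160 with hl
  have hl0 : 0 < l := by positivity
  have ht0 : 0 < t := by positivity
  have hLoc' : LocO (max CM 0) u t T (l ^ 2) (Ψ : (Fin N → T3) → ℂ) :=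
    (hLoc.mono hu.le (sq_nonneg _) (le_max_left _ _)).congr hae
  have key1 := hE'' N W R₀ R a (u ^ 161) h k w ha haa1 hNa hR0 hRθ' (by positivity) le_rfl hD Ψ hΨ1
    hkin hLoc' (fun p => E p - ksq p) hφb
  have key2 := hW'' N a ha haa2 hNa E hS Ψ hΨ1
  have hDm : Dm (fun p => E p - ksq p) ψ = ∑' p, (E p - ksq p) * nk Ψ p := by
    rw [Dm_congr hae]
    exact Dm_eq Ψ ⟨_, hφb⟩
  have hDb : Db (l ^ 2) ψ = Db (l ^ 2) (Ψ : (Fin N → T3) → ℂ) := Db_congr hae _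
  have hpot := pot_ge ht0.le hsc.W_meas hsc.W_nonneg hsc.W_bdd hD.sr.bm hD.sr.even hD.k_bm
    hD.k_nonneg hD.k_even hD.out h𝒱 hψ
  refine le_trans (ENNReal.ofReal_le_ofReal ?_) hpot
  have hTV : (∑ j, ∑' k : Fin N → Fin 3 → ℤ, ksq (k j) * ‖cf (hψ.1.toLp ψ) k‖ ^ 2)
        + (∑ j, ∑ l ∈ Finset.univ.erase j,
            (inner ℂ (hψ.1.toLp ψ) (HP h j l (Phi t j l (hψ.1.toLp ψ)))).re)
        - 1 / 2 * ∑ j, ∑ l ∈ Finset.univ.erase j,
            qf (fun x => k (x j - x l)) (Phi t j l (hψ.1.toLp ψ)) = TV t h k Ψ := rfl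
  rw [hTV, hDm, hDb]
  have hsimp : ∀ p, ksq p + (E p - ksq p) = E p := fun p => by ring
  simp only [hsimp] at key1
  linarith

end Pool.Agent.Lib.MP_4952d6_mp.O
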