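import Pool.Agent.Lib.MP_4952d6_mp.Pd.D01

/-!
# Density matrix: the cosine symbol
-/

set_option autoImplicit false
set_option linter.unusedSectionVars false
set_option linter.unusedVariables false
open MeasureTheory Function Filter Topology Set ComplexConjugate
open scoped ENNReal

namespace Pool.Agent.Lib.MP_4952d6_mp.O

open LB

/-- The weight `(1 - cos (x·y)) / 2`. -/
noncomputable def wv (y x : Fin 3 → ℝ) : ℝ := (1 - Real.cos (∑ α, x α * y α)) / 2

/-- Rescaled momenta. -/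
noncomputable def pm (l : ℝ) (p : Fin 3 → ℤ) : Fin 3 → ℝ := fun α => 2 * Real.pi * l * (p α : ℝ)

/-- The symbol with a cosine source. -/
noncomputable def Ec (y : Fin 3 → ℝ) (lam l : ℝ) (p : Fin 3 → ℤ) : ℝ :=
  ksq p + lam * wv y (pm l p) / l ^ 2

lemma pm_nr (l : ℝ) (p : Fin 3 → ℤ) : nr (pm l p) ^ 2 = l ^ 2 * ksq p := by
  rw [nr_sq]
  unfold pm ksq mom2
  rw [Fin.sum_univ_three, Fin.sum_univ_three]
  ring

lemma wv_nonneg (y x : Fin 3 → ℝ) : 0 ≤ wv y x := by
  unfold wv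
  have := Real.cos_le_one (∑ α, x α * y α)
  linarith

lemma wv_le_one (y x : Fin 3 → ℝ) : wv y x ≤ 1 := by
  unfold wv
  have := Real.neg_one_le_cos (∑ α, x α * y α)
  linarith

lemma dot_sq_le (x y : Fin 3 → ℝ) : (∑ α, x α * y α) ^ 2 ≤ nr x ^ 2 * nr y ^ 2 := by
  rw [nr_sq, nr_sq]
  exact Finset.sum_mul_sq_le_sq_mul_sq _ _ _

lemma wv_le_sq (y x : Fin 3 → ℝ) : wv y x ≤ nr y ^ 2 / 4 * nr x ^ 2 := by
  unfold wv
  have h1 := Real.one_sub_sq_div_two_le_cos (x := ∑ α, x α * y α)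
  have h2 := dot_sq_le x y
  linarith

lemma wv_cont (y : Fin 3 → ℝ) : Continuous (wv y) := by
  unfold wv
  fun_prop

lemma wv_neg (y x : Fin 3 → ℝ) : wv y (-x) = wv y x := by
  unfold wv
  have h : ∑ α, (-x) α * y α = -∑ α, x α * y α := by
    rw [← Finset.sum_neg_distrib]
    exact Finset.sum_congr rfl fun α _ => by rw [Pi.neg_apply]; ring
  rw [h, Real.cos_neg]

lemma pm_neg (l : ℝ) (p : Fin 3 → ℤ) : pm l (-p) = -pm l p := by
  funext α
  unfold pm
  simp

lemma pm_add (l : ℝ) (p n : Fin 3 → ℤ) : pm l (p + n) = pm l p + pm l n := by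
  funext α
  unfold pm
  simp only [Pi.add_apply, Int.cast_add]
  ring

lemma pm_sub (l : ℝ) (p n : Fin 3 → ℤ) : pm l (p - n) = pm l p - pm l n := by
  funext α
  unfold pm
  simp only [Pi.sub_apply, Int.cast_sub]
  ring

/-- Averages. -/
lemma wv_avg (y x z : Fin 3 → ℝ) :
    |1 / 2 * (wv y (x + z) + wv y (x - z)) - wv y x| ≤ nr y ^ 2 / 4 * nr z ^ 2 := by
  have h1 := wv_le_sq y z
  have h2 := wv_nonneg y z
  have e1 : ∑ α, (x + z) α * y α = ∑ α, x α * y α + ∑ α, z α * y α := by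
    rw [← Finset.sum_add_distrib]
    exact Finset.sum_congr rfl fun α _ => by rw [Pi.add_apply]; ring
  have e2 : ∑ α, (x - z) α * y α = ∑ α, x α * y α - ∑ α, z α * y α := by
    rw [← Finset.sum_sub_distrib]
    exact Finset.sum_congr rfl fun α _ => by rw [Pi.sub_apply]; ring
  have e3 : 1 / 2 * (wv y (x + z) + wv y (x - z)) - wv y x
      = Real.cos (∑ α, x α * y α) * wv y z := by
    unfold wv
    rw [e1, e2, Real.cos_add, Real.cos_sub]
    ring
  rw [e3, abs_mul, abs_of_nonneg h2]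
  calc |Real.cos (∑ α, x α * y α)| * wv y z ≤ 1 * wv y z :=
        mul_le_mul_of_nonneg_right (Real.abs_cos_le_one _) h2
    _ ≤ _ := by linarith

section
variable {y : Fin 3 → ℝ} {b lam l : ℝ}

lemma Ec_abs (hb : nr y ^ 2 / 4 ≤ b) (hlb : |lam| * b ≤ 1 / 8) (hl : 0 < l) (p : Fin 3 → ℤ) :
    |lam * wv y (pm l p) / l ^ 2| ≤ 1 / 8 * ksq p := by
  have h1 := wv_nonneg y (pm l p)
  have h2 := wv_le_sq y (pm l p)
  rw [pm_nr] at h2
  have hk := ksq_nonneg p
  rw [abs_div, abs_mul, abs_of_nonneg h1, abs_of_nonneg (sq_nonneg l), div_le_iff₀ (by positivity)]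
  have h3 : wv y (pm l p) ≤ b * (l ^ 2 * ksq p) :=
    h2.trans (mul_le_mul_of_nonneg_right hb (by positivity))
  calc |lam| * wv y (pm l p) ≤ |lam| * (b * (l ^ 2 * ksq p)) :=
        mul_le_mul_of_nonneg_left h3 (abs_nonneg _)
    _ = (|lam| * b) * (l ^ 2 * ksq p) := by ring
    _ ≤ 1 / 8 * (l ^ 2 * ksq p) := mul_le_mul_of_nonneg_right hlb (by positivity)
    _ = _ := by ring

theorem Ec_sym (hb : nr y ^ 2 / 4 ≤ b) (hlb : |lam| * b ≤ 1 / 8) (hl : 0 < l) :
    Sym (Ec y lam l) := by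
  refine ⟨fun p => ?_, fun p => ?_, fun p => ?_, fun M hM p => ?_⟩
  · have := (abs_le.1 (Ec_abs hb hlb hl p)).1
    unfold Ec
    linarith
  · have := (abs_le.1 (Ec_abs hb hlb hl p)).2
    unfold Ec
    linarith
  · unfold Ec
    rw [ksq_neg, pm_neg, wv_neg]
  · have hpi2 : Real.pi ^ 2 ≤ 10 := by
      have := Real.pi_lt_d2
      nlinarith [Real.pi_pos]
    have hl2 : 0 < l ^ 2 := by positivity
    have hsym : ∑ n ∈ bx M, th M n ^ 2 * Ec y lam l (p + n)
        = ∑ n ∈ bx M, th M n ^ 2 * Ec y lam l (p - n) := by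
      refine Finset.sum_nbij' (fun n => -n) (fun n => -n) ?_ ?_ ?_ ?_ ?_
      · intro n hn; exact bx_neg.2 hn
      · intro n hn; exact bx_neg.2 hn
      · intro n _; simp
      · intro n _; simp
      · intro n _
        simp only [th_neg, sub_neg_eq_add]
    have hhalf : ∑ n ∈ bx M, th M n ^ 2 * Ec y lam l (p + n)
        = ∑ n ∈ bx M, th M n ^ 2 * (1 / 2 * (Ec y lam l (p + n) + Ec y lam l (p - n))) := by
      have : ∑ n ∈ bx M, th M n ^ 2 * (1 / 2 * (Ec y lam l (p + n) + Ec y lam l (p - n)))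
          = 1 / 2 * ∑ n ∈ bx M, th M n ^ 2 * Ec y lam l (p + n)
            + 1 / 2 * ∑ n ∈ bx M, th M n ^ 2 * Ec y lam l (p - n) := by
        rw [Finset.mul_sum, Finset.mul_sum, ← Finset.sum_add_distrib]
        refine Finset.sum_congr rfl fun n _ => ?_
        ring
      rw [this, ← hsym]
      ring
    rw [hhalf]
    have hpt : ∀ n ∈ bx M, 1 / 2 * (Ec y lam l (p + n) + Ec y lam l (p - n))
        ≤ Ec y lam l p + 150 * (M : ℝ) ^ 2 := by
      intro n hn
      have hkn := ksq_bx hn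
      have hkn0 := ksq_nonneg n
      have hkn' : ksq n ≤ 120 * (M : ℝ) ^ 2 := by
        have : 12 * Real.pi ^ 2 * (M : ℝ) ^ 2 ≤ 120 * (M : ℝ) ^ 2 := by
          have : 0 ≤ (M : ℝ) ^ 2 := by positivity
          nlinarith
        linarith
      have hav := wv_avg y (pm l p) (pm l n)
      rw [pm_nr, ← pm_add, ← pm_sub] at hav
      set D := 1 / 2 * (wv y (pm l (p + n)) + wv y (pm l (p - n))) - wv y (pm l p) with hD
      have hav2 : |D| ≤ b * (l ^ 2 * ksq n) :=
        hav.trans (mul_le_mul_of_nonneg_right hb (by positivity))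
      have h1 : 1 / 2 * (Ec y lam l (p + n) + Ec y lam l (p - n))
          = Ec y lam l p + ksq n + lam * D / l ^ 2 := by
        unfold Ec
        rw [hD, ksq_add_cpn, ksq_sub_cpn]
        field_simp
        ring
      rw [h1]
      have h2 : lam * D / l ^ 2 ≤ 1 / 8 * ksq n := by
        rw [div_le_iff₀ hl2]
        calc lam * D ≤ |lam * D| := le_abs_self _
          _ = |lam| * |D| := abs_mul _ _
          _ ≤ |lam| * (b * (l ^ 2 * ksq n)) := mul_le_mul_of_nonneg_left hav2 (abs_nonneg _)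
          _ = (|lam| * b) * (l ^ 2 * ksq n) := by ring
          _ ≤ 1 / 8 * (l ^ 2 * ksq n) := mul_le_mul_of_nonneg_right hlb (by positivity)
          _ = 1 / 8 * ksq n * l ^ 2 := by ring
      linarith
    calc ∑ n ∈ bx M, th M n ^ 2 * (1 / 2 * (Ec y lam l (p + n) + Ec y lam l (p - n)))
        ≤ ∑ n ∈ bx M, th M n ^ 2 * (Ec y lam l p + 150 * (M : ℝ) ^ 2) := by
          refine Finset.sum_le_sum fun n hn => ?_
          have := hpt n hn
          have h0 : 0 ≤ th M n ^ 2 := by positivity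
          exact mul_le_mul_of_nonneg_left this h0
      _ = Ec y lam l p + 150 * (M : ℝ) ^ 2 := by
          rw [← Finset.sum_mul, th_sq_sum hM, one_mul]

lemma Ec_sub_abs (h2 : |lam| ≤ 1 / 8) (hl : 0 < l) (p : Fin 3 → ℤ) :
    |Ec y lam l p - ksq p| ≤ 8 * Real.pi * (1 / l ^ 2) := by
  have e : Ec y lam l p - ksq p = lam * wv y (pm l p) / l ^ 2 := by unfold Ec; ring
  rw [e, abs_div, abs_mul, abs_of_nonneg (wv_nonneg _ _), abs_of_nonneg (sq_nonneg l)]
  rw [mul_one_div]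
  apply div_le_div_of_nonneg_right _ (by positivity)
  have h3 := Real.pi_gt_three
  calc |lam| * wv y (pm l p) ≤ 1 / 8 * 1 :=
        mul_le_mul h2 (wv_le_one _ _) (wv_nonneg _ _) (by norm_num)
    _ ≤ _ := by linarith

end

/-- The number of particles weighted by the cosine. -/
noncomputable def Dw {N : ℕ} (y : Fin 3 → ℝ) (l : ℝ) (ψ : (Fin N → T3) → ℂ) : ℝ :=
  Dm (fun p => wv y (pm l p)) ψ

lemma Dm_source_cos {N : ℕ} (y : Fin 3 → ℝ) (lam l : ℝ) (ψ : (Fin N → T3) → ℂ) :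
    Dm (fun p => Ec y lam l p - ksq p) ψ = lam / l ^ 2 * Dw y l ψ := by
  have h : (fun p => Ec y lam l p - ksq p) = fun p => lam / l ^ 2 * wv y (pm l p) := by
    funext p
    unfold Ec
    ring
  rw [h]
  unfold Dw Dm
  rw [Finset.mul_sum]
  refine Finset.sum_congr rfl fun j _ => ?_
  rw [← tsum_mul_left]
  refine tsum_congr fun k => ?_
  ring

end Pool.Agent.Lib.MP_4952d6_mp.O
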