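import Pool.Agent.Lib.MP_4952d6_mp.Pd.D02
import Pool.Agent.Lib.MP_4952d6_mp.Po.N28

/-!
# Density matrix: the limit of the lattice sums with a cosine source
-/

set_option autoImplicit false
set_option linter.unusedSectionVars false
set_option linter.unusedVariables false
open MeasureTheory Function Filter Topology Set ComplexConjugate
open scoped ENNReal

namespace Pool.Agent.Lib.MP_4952d6_mp.O

open LB

/-- The density of the excitations, weighted by the cosine. -/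
noncomputable def wj (y x : Fin 3 → ℝ) : ℝ := wv y x * Jgd (nr x ^ 2)

/-- The limiting weighted number of excitations. -/
noncomputable def G3 (y : Fin 3 → ℝ) : ℝ := 1 / (16 * Real.pi ^ 3) * ∫ x : Fin 3 → ℝ, wj y x

lemma wv_zero_of {y x : Fin 3 → ℝ} (h : nr x = 0) : wv y x = 0 := by
  refine le_antisymm ?_ (wv_nonneg y x)
  have h1 := wv_le_sq y x
  rw [h] at h1
  linarith

lemma wj_nonneg (y x : Fin 3 → ℝ) : 0 ≤ wj y x := by
  unfold wj
  rcases (nr_nonneg x).eq_or_lt with h | h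
  · rw [wv_zero_of h.symm, zero_mul]
  · exact mul_nonneg (wv_nonneg y x) (Jgd_pos (by positivity)).le

lemma wj_le_nr (y x : Fin 3 → ℝ) : wj y x ≤ nr y ^ 2 * nr x := by
  unfold wj
  rcases (nr_nonneg x).eq_or_lt with h | h
  · rw [wv_zero_of h.symm, zero_mul, ← h, mul_zero]
  · have h1 := wv_le_sq y x
    have h2 := Jgd_le_sqrt (s := nr x ^ 2) (by positivity)
    rw [Real.sqrt_sq h.le] at h2
    have h3 := (Jgd_pos (s := nr x ^ 2) (by positivity)).le
    calc wv y x * Jgd (nr x ^ 2) ≤ nr y ^ 2 / 4 * nr x ^ 2 * (4 / nr x) :=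
          mul_le_mul h1 h2 h3 (by positivity)
      _ = nr y ^ 2 * nr x := by field_simp

lemma wj_le_J {y x : Fin 3 → ℝ} (h : 0 < nr x) : wj y x ≤ Jgd (nr x ^ 2) := by
  unfold wj
  have h3 := (Jgd_pos (s := nr x ^ 2) (by positivity)).le
  have := mul_le_mul_of_nonneg_right (wv_le_one y x) h3
  linarith

lemma wj_le (y x : Fin 3 → ℝ) : wj y x ≤ nr y ^ 2 + 4 := by
  rcases le_total (nr x) 1 with h | h
  · have h1 := wj_le_nr y x
    have h2 : nr y ^ 2 * nr x ≤ nr y ^ 2 * 1 := mul_le_mul_of_nonneg_left h (sq_nonneg _)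
    linarith
  · have h0 : 0 < nr x := by linarith
    have h1 := wj_le_J (y := y) h0
    have h2 := Jgd_le_sqrt (s := nr x ^ 2) (by positivity)
    rw [Real.sqrt_sq h0.le] at h2
    have h3 : 4 / nr x ≤ 4 := by
      rw [div_le_iff₀ h0]
      linarith
    have h4 := sq_nonneg (nr y)
    linarith

lemma Jgd_continuousAt {s : ℝ} (hs : 0 < s) : ContinuousAt Jgd s := by
  have hpi := Real.pi_pos
  unfold Jgd
  have h0 : Real.sqrt (s ^ 2 + 16 * Real.pi * s) ≠ 0 := (Real.sqrt_pos.2 (by positivity)).ne'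
  refine ContinuousAt.sub (ContinuousAt.div ?_ ?_ h0) continuousAt_const
  · fun_prop
  · fun_prop

lemma wj_continuous (y : Fin 3 → ℝ) : Continuous (wj y) := by
  rw [continuous_iff_continuousAt]
  intro x
  rcases (nr_nonneg x).eq_or_lt with h | h
  · have h0 : wj y x = 0 := by
      unfold wj
      rw [wv_zero_of h.symm, zero_mul]
    have h1 : Tendsto (fun z => nr y ^ 2 * nr z) (𝓝 x) (𝓝 0) := by
      have h2 := (continuous_const.mul nr_cont).tendsto (f := fun z => nr y ^ 2 * nr z) x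
      rwa [← h, mul_zero] at h2
    show Tendsto (wj y) (𝓝 x) (𝓝 (wj y x))
    rw [h0]
    exact squeeze_zero (fun z => wj_nonneg y z) (fun z => wj_le_nr y z) h1
  · have hs : ContinuousAt Jgd (nr x ^ 2) := Jgd_continuousAt (by positivity)
    exact (wv_cont y).continuousAt.mul
      (ContinuousAt.comp (f := fun x => nr x ^ 2) hs (nr_cont.pow 2).continuousAt)

lemma Jnr_integrable : Integrable (fun x : Fin 3 → ℝ => Jgd (nr x ^ 2)) :=
  (integrable_nr (fun r => Jgd (r ^ 2))).2 Jgd0_integrable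

lemma wj_integrable (y : Fin 3 → ℝ) : Integrable (wj y) := by
  unfold wj
  refine Jnr_integrable.bdd_mul (c := 1) (wv_cont y).aestronglyMeasurable
    (Eventually.of_forall fun x => ?_)
  rw [Real.norm_eq_abs, abs_of_nonneg (wv_nonneg y x)]
  exact wv_le_one y x

lemma Jnr_integral : 1 / (16 * Real.pi ^ 3) * ∫ x : Fin 3 → ℝ, Jgd (nr x ^ 2)
    = 8 / (3 * Real.sqrt Real.pi) := by
  have hpi := Real.pi_pos
  rw [integral_nr (fun r => Jgd (r ^ 2)), sig_eq, Jgd_integral, ← F1_kappa]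
  field_simp
  ring

lemma G3_nonneg (y : Fin 3 → ℝ) : 0 ≤ G3 y := by
  have hpi := Real.pi_pos
  unfold G3
  exact mul_nonneg (by positivity) (integral_nonneg fun x => wj_nonneg y x)

lemma ae_nr_pos : ∀ᵐ x : Fin 3 → ℝ, 0 < nr x := by
  have h : ∀ᵐ x : Fin 3 → ℝ, x ≠ 0 := by
    rw [ae_iff]
    simp
  filter_upwards [h] with x hx
  refine lt_of_le_of_ne (nr_nonneg x) fun h0 => hx ?_
  have h1 : ∑ α, x α ^ 2 = 0 := by rw [← nr_sq, ← h0]; norm_num
  rw [Finset.sum_eq_zero_iff_of_nonneg (fun α _ => sq_nonneg _)] at h1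
  funext α
  exact pow_eq_zero_iff (two_ne_zero) |>.1 (h1 α (Finset.mem_univ α))

lemma G3_le (y : Fin 3 → ℝ) : G3 y ≤ 8 / (3 * Real.sqrt Real.pi) := by
  have hpi := Real.pi_pos
  rw [← Jnr_integral]
  unfold G3
  refine mul_le_mul_of_nonneg_left ?_ (by positivity)
  refine integral_mono_ae (wj_integrable y) Jnr_integrable ?_
  filter_upwards [ae_nr_pos] with x hx
  exact wj_le_J hx

lemma G3_le_two (y : Fin 3 → ℝ) : G3 y ≤ 2 := (G3_le y).trans F1_kappa2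

/-! ### Riemann sums -/

lemma pm_zero (l : ℝ) : pm l 0 = 0 := by
  funext α
  unfold pm
  simp

noncomputable def FW (τ : ℝ) (y x : Fin 3 → ℝ) : ℝ := Real.exp (-(τ * nr x ^ 2)) * wj y x

lemma FW_continuous (τ : ℝ) (y : Fin 3 → ℝ) : Continuous (FW τ y) := by
  unfold FW
  exact (Real.continuous_exp.comp ((continuous_const.mul (nr_cont.pow 2)).neg)).mul
    (wj_continuous y)

lemma FW_bound (τ : ℝ) (y x : Fin 3 → ℝ) :
    |FW τ y x| ≤ (nr y ^ 2 + 4) * Real.exp (-(τ * nr x ^ 2)) := by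
  unfold FW
  rw [abs_mul, abs_of_pos (Real.exp_pos _), abs_of_nonneg (wj_nonneg y x), mul_comm]
  exact mul_le_mul_of_nonneg_right (wj_le y x) (Real.exp_pos _).le

lemma FW_summable {τ l : ℝ} (hτ : 0 < τ) (hl : 0 < l) (y : Fin 3 → ℝ) :
    Summable fun p => FW τ y (pm l p) :=
  riemann_summable hτ (FW_bound τ y) (h := 2 * Real.pi * l)
    (by have := Real.pi_pos; positivity)

lemma FW_limit {τ : ℝ} (hτ : 0 < τ) (y : Fin 3 → ℝ) :
    Tendsto (fun l : ℝ => 1 / 2 * (l ^ 3 * ∑' p : Fin 3 → ℤ, FW τ y (pm l p))) (𝓝[>] 0)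
      (𝓝 (1 / (16 * Real.pi ^ 3) * ∫ x, FW τ y x)) := by
  have hpi := Real.pi_pos
  have h1 := riemann_tendsto (FW_continuous τ y) hτ (FW_bound τ y)
  have h2 : Tendsto (fun l : ℝ => 2 * Real.pi * l) (𝓝[>] 0) (𝓝[>] 0) := by
    refine tendsto_nhdsWithin_iff.2 ⟨?_, ?_⟩
    · have h3 : Tendsto (fun l : ℝ => 2 * Real.pi * l) (𝓝 0) (𝓝 (2 * Real.pi * 0)) :=
        (continuous_const.mul continuous_id).tendsto 0
      rw [mul_zero] at h3
      exact h3.mono_left nhdsWithin_le_nhds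
    · filter_upwards [self_mem_nhdsWithin] with l hl
      have hl0 : (0:ℝ) < l := hl
      show (0:ℝ) < 2 * Real.pi * l
      positivity
  have h4 := (h1.comp h2).const_mul (1 / (16 * Real.pi ^ 3))
  refine h4.congr fun l => ?_
  simp only [Function.comp]
  have h5 : ∀ p : Fin 3 → ℤ, FW τ y (fun α => 2 * Real.pi * l * (p α : ℝ)) = FW τ y (pm l p) :=
    fun p => rfl
  rw [tsum_congr h5]
  field_simp
  ring

lemma FW_lim0 (y : Fin 3 → ℝ) :
    Tendsto (fun τ : ℝ => 1 / (16 * Real.pi ^ 3) * ∫ x, FW τ y x) (𝓝[>] 0) (𝓝 (G3 y)) := by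
  unfold G3
  refine Tendsto.const_mul _ ?_
  refine tendsto_integral_filter_of_dominated_convergence (fun x => wj y x) ?_ ?_ ?_ ?_
  · exact Eventually.of_forall fun τ => (FW_continuous τ y).aestronglyMeasurable
  · filter_upwards [self_mem_nhdsWithin] with τ hτ
    have hτ0 : (0:ℝ) < τ := hτ
    refine Eventually.of_forall fun x => ?_
    unfold FW
    rw [norm_mul, Real.norm_eq_abs, Real.norm_eq_abs, abs_of_pos (Real.exp_pos _),
      abs_of_nonneg (wj_nonneg y x)]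
    have h1 : Real.exp (-(τ * nr x ^ 2)) ≤ 1 := by
      rw [Real.exp_le_one_iff]
      have : 0 ≤ τ * nr x ^ 2 := by positivity
      linarith
    have := mul_le_mul_of_nonneg_right h1 (wj_nonneg y x)
    linarith
  · exact wj_integrable y
  · refine Eventually.of_forall fun x => ?_
    have hc : Continuous (fun τ : ℝ => FW τ y x) := by
      unfold FW
      fun_prop
    have h := hc.tendsto 0
    have e : FW 0 y x = wj y x := by
      unfold FW
      rw [zero_mul, neg_zero, Real.exp_zero, one_mul]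
    rw [e] at h
    exact h.mono_left nhdsWithin_le_nhds

/-! ### Concavity -/

lemma Jg_up_gen {s w b κ : ℝ} (hs : 0 < s) (hw : 0 ≤ w) (hb : 0 ≤ b) (hwb : w ≤ b * s)
    (hκ : 0 < κ) : κ * w * (((1 + κ * b) ^ 2)⁻¹ * Jgd s) ≤ Jg (s + κ * w) - Jg s := by
  rcases hw.eq_or_lt with h0 | h0
  · rw [← h0]
    simp
  · have hc : 1 ≤ 1 + κ * b := by
      have : 0 ≤ κ * b := by positivity
      linarith
    have h1 := Jg_sub_ge hs.le (δ := κ * w) (by positivity)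
    refine le_trans (mul_le_mul_of_nonneg_left ?_ (by positivity)) h1
    have h2 : s + κ * w ≤ (1 + κ * b) * s := by
      have := mul_le_mul_of_nonneg_left hwb hκ.le
      linarith
    have h3 := Jgd_anti (by positivity) h2
    refine le_trans ?_ h3
    have h4 := Jgd_scale hs hc
    rw [inv_mul_le_iff₀ (by positivity)]
    exact h4

lemma Jg_dn_gen {s w b κ : ℝ} (hs : 0 < s) (hw : 0 ≤ w) (hb : 0 ≤ b) (hwb : w ≤ b * s)
    (hκ : 0 ≤ κ) (hκb : κ * b ≤ 1 / 8) :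
    Jg s - Jg (s + -κ * w) ≤ κ * w * (((1 - κ * b) ^ 2)⁻¹ * Jgd s) := by
  have hc : 0 < 1 - κ * b := by linarith
  have hc1 : 1 - κ * b ≤ 1 := by
    have : 0 ≤ κ * b := by positivity
    linarith
  have h2 : (1 - κ * b) * s ≤ s + -κ * w := by
    have := mul_le_mul_of_nonneg_left hwb hκ
    linarith
  have hE : 0 < s + -κ * w := lt_of_lt_of_le (by positivity) h2
  have h1 := Jg_sub_le hE (δ := κ * w) (by positivity)
  have e1 : s + -κ * w + κ * w = s := by ring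
  rw [e1] at h1
  refine h1.trans (mul_le_mul_of_nonneg_left ?_ (by positivity))
  have h3 := Jgd_anti (by positivity) h2
  refine h3.trans ?_
  have h4 := Jgd_scale (s := (1 - κ * b) * s) (c := (1 - κ * b)⁻¹) (by positivity)
    ((one_le_inv₀ hc).2 hc1)
  have e2 : (1 - κ * b)⁻¹ * ((1 - κ * b) * s) = s := by
    rw [← mul_assoc, inv_mul_cancel₀ hc.ne', one_mul]
  rw [e2, inv_pow] at h4
  exact h4

/-! ### The lattice sum -/

lemma LSg_summable {E : (Fin 3 → ℤ) → ℝ} (hS : Sym E) {t l : ℝ} (ht : 0 < t) (hl : 0 < l) :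
    Summable fun p : Fin 3 → ℤ => if p = 0 then (0:ℝ) else
      et t p ^ 2 * (epsf (8 * Real.pi / l ^ 2) (E p) - E p - 8 * Real.pi / l ^ 2) := by
  have hpi := Real.pi_pos
  have hG0 : 0 < 8 * Real.pi / l ^ 2 := by positivity
  set G : ℝ := 8 * Real.pi / l ^ 2 with hG
  refine Summable.of_norm_bounded ((summable_et_sq ht).mul_left G) fun p => ?_
  have h7 : 0 ≤ et t p ^ 2 := sq_nonneg _
  split_ifs with hp
  · rw [norm_zero]; positivity
  · have hE := hS.nonneg p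
    have h2 := epsf_le hG0.le hE
    have h3 := epsf_ge hG0.le hE
    rw [Real.norm_eq_abs, abs_mul, abs_of_nonneg h7, mul_comm G]
    refine mul_le_mul_of_nonneg_left ?_ h7
    rw [abs_le]
    constructor <;> linarith

lemma epsf_Jg {l : ℝ} (hl : 0 < l) (E : ℝ) :
    epsf (8 * Real.pi / l ^ 2) E - E = 1 / l ^ 2 * Jg (l ^ 2 * E) := by
  have e1 : 8 * Real.pi / l ^ 2 = 1 / l ^ 2 * (8 * Real.pi) := by ring
  have e2 : epsf (8 * Real.pi / l ^ 2) E = 1 / l ^ 2 * epsf (8 * Real.pi) (l ^ 2 * E) := by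
    rw [← LimB_epsf (by positivity), ← e1]
    congr 1
    field_simp
  have e3 : Jg (l ^ 2 * E) = epsf (8 * Real.pi) (l ^ 2 * E) - l ^ 2 * E := by
    unfold Jg epsf
    congr 2
    ring
  rw [e2, e3]
  field_simp

lemma LSO_eq_LSg {t l : ℝ} (hl : 0 < l) (y : Fin 3 → ℝ) : LSO t 1 0 l = LSg t l (Ec y 0 l) := by
  unfold LSO LSg
  refine tsum_congr fun p => ?_
  have h1 : Es 1 0 l p = ksq p := by
    unfold Es eO
    field_simp
    ring
  have h2 : Ec y 0 l p = ksq p := by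
    unfold Ec
    ring
  rw [h1, h2]

lemma LSg_ge {y : Fin 3 → ℝ} {b lam l τ c : ℝ} (hb : nr y ^ 2 / 4 ≤ b) (hlb : |lam| * b ≤ 1 / 8)
    (hl : 0 < l) (hτ : 0 < τ)
    (hc : ∀ x : Fin 3 → ℝ, 0 < nr x → Jg (nr x ^ 2) + c * wj y x ≤ Jg (nr x ^ 2 + lam * wv y x)) :
    LSO (l ^ 2 * τ) 1 0 l + c / l ^ 2 * ∑' p : Fin 3 → ℤ, FW τ y (pm l p)
      ≤ LSg (l ^ 2 * τ) l (Ec y lam l) := by
  have hpi := Real.pi_pos
  have ht : 0 < l ^ 2 * τ := by positivity
  rw [LSO_eq_LSg hl y]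
  have hb0 : 0 ≤ b := le_trans (by positivity) hb
  have hS0 : Sym (Ec y 0 l) := Ec_sym hb (by rw [abs_zero, zero_mul]; norm_num) hl
  have hS : Sym (Ec y lam l) := Ec_sym hb hlb hl
  unfold LSg
  rw [← tsum_mul_left, ← (LSg_summable hS0 ht hl).tsum_add ((FW_summable hτ hl y).mul_left _)]
  refine ((LSg_summable hS0 ht hl).add ((FW_summable hτ hl y).mul_left _)).tsum_le_tsum
    (fun p => ?_) (LSg_summable hS ht hl)
  rcases eq_or_ne p 0 with hp | hp
  · rw [if_pos hp, if_pos hp, hp, pm_zero]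
    unfold FW wj
    rw [wv_zero_of (by unfold nr; simp)]
    simp
  · rw [if_neg hp, if_neg hp]
    have hk := ksq_pos hp
    have hx2 := pm_nr l p
    have hx : 0 < nr (pm l p) := by
      refine lt_of_le_of_ne (nr_nonneg _) fun h0 => ?_
      rw [← h0] at hx2
      have : 0 < l ^ 2 * ksq p := by positivity
      linarith [hx2]
    have h1 := hc (pm l p) hx
    have h2 : l ^ 2 * Ec y 0 l p = nr (pm l p) ^ 2 := by
      unfold Ec
      rw [hx2]
      ring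
    have h3 : l ^ 2 * Ec y lam l p = nr (pm l p) ^ 2 + lam * wv y (pm l p) := by
      unfold Ec
      rw [hx2]
      field_simp
    rw [epsf_Jg hl, epsf_Jg hl, h2, h3, Mul_et_sq]
    unfold FW
    rw [hx2]
    have e3 : l ^ 2 * τ * ksq p = τ * (l ^ 2 * ksq p) := by ring
    rw [e3]
    rw [hx2] at h1
    set e := Real.exp (-(τ * (l ^ 2 * ksq p))) with he
    have he0 : 0 < e := Real.exp_pos _
    have h4 : 0 ≤ e * (1 / l ^ 2) := by positivity
    have h5 := mul_le_mul_of_nonneg_left h1 h4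
    have e4 : c / l ^ 2 * (e * wj y (pm l p)) = e * (1 / l ^ 2) * (c * wj y (pm l p)) := by ring
    rw [e4]
    linarith

lemma Jb_zero : Jb 1 0 = Jf 0 := by
  have h := Jb_sub (b := 1) (lam := 0) zero_le_one (by rw [abs_zero, zero_mul]; norm_num)
  have e : ∀ r : ℝ, Eb 1 0 r = r ^ 2 := fun r => by unfold Eb; ring
  simp only [e, sub_self, mul_zero, integral_zero] at h
  linarith

/-- The limit of the lattice sum with a cosine source. -/
theorem oj_cos {y : Fin 3 → ℝ} {b lam c η : ℝ} (hb : nr y ^ 2 / 4 ≤ b) (hlb : |lam| * b ≤ 1 / 8)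
    (hη : 0 < η)
    (hc : ∀ x : Fin 3 → ℝ, 0 < nr x → Jg (nr x ^ 2) + c * wj y x ≤ Jg (nr x ^ 2 + lam * wv y x)) :
    ∃ u₀ : ℝ, 0 < u₀ ∧ ∀ u : ℝ, 0 < u → u < u₀ → ∃ l₀ : ℝ, 0 < l₀ ∧ ∀ l : ℝ, 0 < l → l < l₀ →
      Jf 0 + c * G3 y - η
        ≤ 4 * Real.sqrt Real.pi / u ^ 8 + 1 / 2 * l ^ 5 * LSg (l ^ 2 * u ^ 16) l (Ec y lam l) := by
  obtain ⟨u₁, hu₁, hJ⟩ := oj_statement 1 0 (η / 2) one_pos (by rw [abs_zero, zero_mul]; norm_num)
    (by rw [abs_zero]; norm_num) (by positivity)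
  set δ : ℝ := η / (4 * (|c| + 1)) with hδ
  have hc0 := abs_nonneg c
  have hδ0 : 0 < δ := by positivity
  have h1 := Metric.tendsto_nhds.1 (FW_lim0 y) δ hδ0
  obtain ⟨τ0, hτ0, h2⟩ := mem_nhdsGT_iff_exists_Ioo_subset.1 h1
  have hτ0' : (0:ℝ) < τ0 := hτ0
  refine ⟨min u₁ (min 1 τ0), lt_min hu₁ (lt_min one_pos hτ0'), fun u hu hlt => ?_⟩
  have hu1 : u < u₁ := hlt.trans_le (min_le_left _ _)
  have hu2 : u < 1 := hlt.trans_le ((min_le_right _ _).trans (min_le_left _ _))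
  have hu3 : u < τ0 := hlt.trans_le ((min_le_right _ _).trans (min_le_right _ _))
  have hτ : 0 < u ^ 16 := by positivity
  have hττ : u ^ 16 < τ0 := lt_of_le_of_lt (pow_le_of_le_one hu.le hu2.le (by norm_num)) hu3
  have h3 := h2 ⟨hτ, hττ⟩
  simp only [Set.mem_ofPred_eq] at h3
  rw [Real.dist_eq] at h3
  have h4 := Metric.tendsto_nhds.1 (FW_limit hτ y) δ hδ0
  obtain ⟨l1, hl1, h5⟩ := mem_nhdsGT_iff_exists_Ioo_subset.1 h4
  have hl1' : (0:ℝ) < l1 := hl1
  obtain ⟨l₀, hl₀, hJ'⟩ := hJ u hu hu1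
  refine ⟨min l₀ l1, lt_min hl₀ hl1', fun l hl hll => ?_⟩
  have hl2 : l < l₀ := hll.trans_le (min_le_left _ _)
  have hl3 : l < l1 := hll.trans_le (min_le_right _ _)
  have h6 := h5 ⟨hl, hl3⟩
  simp only [Set.mem_ofPred_eq] at h6
  rw [Real.dist_eq] at h6
  have h7 := hJ' l hl hl2
  rw [JO_eq, Jb_zero] at h7
  have h8 := LSg_ge hb hlb hl hτ hc
  set S := ∑' p : Fin 3 → ℤ, FW (u ^ 16) y (pm l p) with hS
  have h9 : |1 / 2 * (l ^ 3 * S) - G3 y| ≤ 2 * δ := by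
    have := abs_sub_le (1 / 2 * (l ^ 3 * S)) (1 / (16 * Real.pi ^ 3) * ∫ x, FW (u ^ 16) y x) (G3 y)
    linarith
  have h10 : |c * (1 / 2 * (l ^ 3 * S) - G3 y)| ≤ η / 2 := by
    rw [abs_mul]
    calc |c| * |1 / 2 * (l ^ 3 * S) - G3 y| ≤ |c| * (2 * δ) := mul_le_mul_of_nonneg_left h9 hc0
      _ ≤ (|c| + 1) * (2 * δ) := mul_le_mul_of_nonneg_right (by linarith) (by positivity)
      _ = η / 2 := by rw [hδ]; field_simp; norm_num
  have h11 := (abs_le.1 h10).1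
  have h12 : 1 / 2 * l ^ 5 * (LSO (l ^ 2 * u ^ 16) 1 0 l + c / l ^ 2 * S)
      ≤ 1 / 2 * l ^ 5 * LSg (l ^ 2 * u ^ 16) l (Ec y lam l) :=
    mul_le_mul_of_nonneg_left h8 (by positivity)
  have e5 : 1 / 2 * l ^ 5 * (LSO (l ^ 2 * u ^ 16) 1 0 l + c / l ^ 2 * S)
      = 1 / 2 * l ^ 5 * LSO (l ^ 2 * u ^ 16) 1 0 l + c * (1 / 2 * (l ^ 3 * S)) := by
    field_simp
  rw [e5] at h12
  linarith

theorem oj_cos_up {y : Fin 3 → ℝ} {b κ : ℝ} (hb : nr y ^ 2 / 4 ≤ b) (hκ : 0 < κ) :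
    ∀ x : Fin 3 → ℝ, 0 < nr x →
      Jg (nr x ^ 2) + κ * ((1 + κ * b) ^ 2)⁻¹ * wj y x ≤ Jg (nr x ^ 2 + κ * wv y x) := by
  intro x hx
  have hb0 : 0 ≤ b := le_trans (by positivity) hb
  have h1 : wv y x ≤ b * nr x ^ 2 :=
    (wv_le_sq y x).trans (mul_le_mul_of_nonneg_right hb (sq_nonneg _))
  have h2 := Jg_up_gen (s := nr x ^ 2) (by positivity) (wv_nonneg y x) hb0 h1 hκ
  unfold wj
  have e : κ * ((1 + κ * b) ^ 2)⁻¹ * (wv y x * Jgd (nr x ^ 2))
      = κ * wv y x * (((1 + κ * b) ^ 2)⁻¹ * Jgd (nr x ^ 2)) := by ring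
  rw [e]
  linarith

theorem oj_cos_dn {y : Fin 3 → ℝ} {b κ : ℝ} (hb : nr y ^ 2 / 4 ≤ b) (hκ : 0 ≤ κ)
    (hκb : κ * b ≤ 1 / 8) :
    ∀ x : Fin 3 → ℝ, 0 < nr x →
      Jg (nr x ^ 2) + -(κ * ((1 - κ * b) ^ 2)⁻¹) * wj y x ≤ Jg (nr x ^ 2 + -κ * wv y x) := by
  intro x hx
  have hb0 : 0 ≤ b := le_trans (by positivity) hb
  have h1 : wv y x ≤ b * nr x ^ 2 :=
    (wv_le_sq y x).trans (mul_le_mul_of_nonneg_right hb (sq_nonneg _))
  have h2 := Jg_dn_gen (s := nr x ^ 2) (by positivity) (wv_nonneg y x) hb0 h1 hκ hκb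
  unfold wj
  have e : -(κ * ((1 - κ * b) ^ 2)⁻¹) * (wv y x * Jgd (nr x ^ 2))
      = -(κ * wv y x * (((1 - κ * b) ^ 2)⁻¹ * Jgd (nr x ^ 2))) := by ring
  rw [e]
  linarith

end Pool.Agent.Lib.MP_4952d6_mp.O
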