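import Pool.Agent.Lib.MP_4952d6_mp.Pd.D03
import Pool.Agent.Lib.MP_4952d6_mp.Po.N11

/-!
# Density matrix: the Griffiths argument with a cosine source
-/

set_option autoImplicit false
set_option linter.unusedSectionVars false
set_option linter.unusedVariables false
open MeasureTheory Function Filter Topology Set ComplexConjugate
open scoped ENNReal

namespace Pool.Agent.Lib.MP_4952d6_mp.O

open LB

/-- Comparison of the energy bounds for one cosine source. -/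
lemma Gc_step (hU : UStatement) {θ CM : ℝ} {y : Fin 3 → ℝ} {b lam c η : ℝ}
    (hb : nr y ^ 2 / 4 ≤ b) (h1 : |lam| * b ≤ 1 / 8) (h2 : |lam| ≤ 1 / 8) (hη : 0 < η)
    (hc : ∀ x : Fin 3 → ℝ, 0 < nr x → Jg (nr x ^ 2) + c * wj y x ≤ Jg (nr x ^ 2 + lam * wv y x)) :
    ∃ c' u₀ : ℝ, 0 < c' ∧ 0 < u₀ ∧ ∀ u : ℝ, 0 < u → u < u₀ → ∃ a₀ : ℝ, 0 < a₀ ∧
      ∀ (N : ℕ) (W f Q : ℝ → ℝ) (R₀ R a : ℝ) (𝒱 : T3 → ℝ≥0∞) (ψ : (Fin N → T3) → ℂ), a < a₀ →
      RegO θ CM c' u W f Q R₀ R a 𝒱 ψ →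
      N ^ 2 * a * u ^ 160 * (c * G3 y - η)
        ≤ lam * (N * a) * Dw y (a / u ^ 160) ψ + η * (N * a) * Db ((a / u ^ 160) ^ 2) ψ := by
  obtain ⟨C, u₁, hC, hu₁, hL'⟩ := ol_gen θ CM
  obtain ⟨u₂, hu₂, hJ'⟩ := oj_cos (η := η / 4) hb h1 (by positivity) hc
  obtain ⟨CU, Y0, hCU, hY0, hU'⟩ := hU θ (η / 4) (by positivity)
  refine ⟨η / (4 * CU), min (min u₁ u₂) (min (min 1 Y0) (η / (4 * (C + 1)))), by positivity,
    lt_min (lt_min hu₁ hu₂) (lt_min (lt_min one_pos hY0) (by positivity)), fun u hu hlt => ?_⟩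
  have hu1 : u < u₁ := hlt.trans_le ((min_le_left _ _).trans (min_le_left _ _))
  have hu2 : u < u₂ := hlt.trans_le ((min_le_left _ _).trans (min_le_right _ _))
  have hu3 : u < 1 := hlt.trans_le ((min_le_right _ _).trans ((min_le_left _ _).trans (min_le_left _ _)))
  have hu4 : u < Y0 := hlt.trans_le ((min_le_right _ _).trans ((min_le_left _ _).trans (min_le_right _ _)))
  have hu5 : u < η / (4 * (C + 1)) := hlt.trans_le ((min_le_right _ _).trans (min_le_right _ _))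
  obtain ⟨a₁, ha₁, hL''⟩ := hL' u hu hu1
  obtain ⟨l₀, hl₀, hJ''⟩ := hJ' u hu hu2
  have hYu : u ^ 160 < Y0 := lt_of_le_of_lt (pow_le_of_le_one hu.le hu3.le (by norm_num)) hu4
  obtain ⟨a₂, ha₂, hU''⟩ := hU' (u ^ 160) (by positivity) hYu
  refine ⟨min (min a₁ a₂) (l₀ * u ^ 160), lt_min (lt_min ha₁ ha₂) (by positivity),
    fun N W f Q R₀ R a 𝒱 ψ hlta hr => ?_⟩
  have haa1 : a < a₁ := hlta.trans_le ((min_le_left _ _).trans (min_le_left _ _))
  have haa2 : a < a₂ := hlta.trans_le ((min_le_left _ _).trans (min_le_right _ _))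
  have haa3 : a < l₀ * u ^ 160 := hlta.trans_le (min_le_right _ _)
  have ha := hr.sc.a_pos
  obtain ⟨e1, e2, hN0⟩ := F2_one ha hu hr.Na
  set l : ℝ := a / u ^ 160 with hl
  have hl0 : 0 < l := by positivity
  have hll : l < l₀ := by rw [hl, div_lt_iff₀ (by positivity)]; exact haa3
  have hSy : Sym (Ec y lam l) := Ec_sym hb h1 hl0
  have hEb : ∀ p, |Ec y lam l p - ksq p| ≤ 8 * Real.pi * (N * a) := fun p => by
    rw [← e1]
    exact Ec_sub_abs h2 hl0 p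
  have hlow := hL'' N W f Q R₀ R a hr.sc haa1 hr.Na hr.Rle 𝒱 hr.V_ge ψ hr.adm hr.loc
    (Ec y lam l) hSy hEb
  have hj := hJ'' l hl0 hll
  obtain ⟨φ, hφ, hφE⟩ := hU'' N W f Q R₀ R a hr.sc haa2 (by rw [hr.Na]; ring) hr.Rle 𝒱 hr.V_meas
    hr.V_top hr.V_ge
  have hmin := hr.min φ hφ
  set X : ℝ := N ^ 2 * a * u ^ 160 with hX
  have hX0 : 0 < X := by positivity
  have hlX : l ^ 5 * X = 1 := by
    rw [← e2]; field_simp
  have ht : l ^ 2 * u ^ 16 = (a / u ^ 152) ^ 2 := by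
    rw [hl]; field_simp
  rw [ht] at hj
  set S : ℝ := LSg ((a / u ^ 152) ^ 2) l (Ec y lam l) with hS
  have hj2 : (Jf 0 + c * G3 y - η / 4) * X ≤ 4 * Real.sqrt Real.pi / u ^ 8 * X + 1 / 2 * S := by
    have h3 := mul_le_mul_of_nonneg_right hj hX0.le
    refine h3.trans (le_of_eq ?_)
    calc (4 * Real.sqrt Real.pi / u ^ 8 + 1 / 2 * l ^ 5 * S) * X
        = 4 * Real.sqrt Real.pi / u ^ 8 * X + 1 / 2 * S * (l ^ 5 * X) := by ring
      _ = _ := by rw [hlX, mul_one]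
  rw [Dm_source_cos] at hlow
  have e3 : lam / l ^ 2 = lam * (N * a) := by rw [← e1]; ring
  rw [e3] at hlow
  set nb : ℝ := Dw y l ψ with hnb
  set n1 : ℝ := Db (l ^ 2) ψ with hn1
  have hn1' : 0 ≤ n1 := by
    rw [hn1]
    unfold Db Dm
    refine Finset.sum_nonneg fun j _ => tsum_nonneg fun k => mul_nonneg ?_ (sq_nonneg _)
    have : Real.exp (-(l ^ 2 * ksq (k j))) ≤ 1 := by
      rw [Real.exp_le_one_iff]
      have : 0 ≤ l ^ 2 * ksq (k j) := mul_nonneg (sq_nonneg _) (ksq_nonneg _)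
      linarith
    linarith
  have hJ0 : 0 ≤ Jf 0 := by
    unfold Jf
    refine mul_nonneg (by positivity) (setIntegral_nonneg measurableSet_Ioi fun r hr => ?_)
    have hr0 : 0 < r := hr
    have h1 := Jg_le_exp (s := r ^ 2) (by positivity)
    rw [jInt_eq, add_zero]
    exact mul_nonneg (sq_nonneg r) h1
  -- upper bound
  have hup : tE 𝒱 φ ≤ ENNReal.ofReal (4 * Real.pi * N ^ 2 * a + X * (Jf 0 + η / 2)) := by
    refine hφE.trans ?_
    have h4 : ENNReal.ofReal (CU * N ^ 2) * (∫⁻ y, 𝒱 y ∂lam3 - ∫⁻ y, ENNReal.ofReal (2 * W (rr y)) ∂lam3)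
        ≤ ENNReal.ofReal (CU * N ^ 2 * (η / (4 * CU) * (a * u ^ 160))) := by
      rw [ENNReal.ofReal_mul (p := CU * N ^ 2) (by positivity)]
      exact mul_le_mul_right hr.V_int _
    have h5 : CU * N ^ 2 * (η / (4 * CU) * (a * u ^ 160)) = η / 4 * X := by
      rw [hX]; field_simp
    rw [h5] at h4
    refine (add_le_add_right h4 _).trans ?_
    rw [← ENNReal.ofReal_add (by positivity) (by positivity)]
    refine ENNReal.ofReal_le_ofReal (le_of_eq ?_)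
    ring
  have hall := hlow.trans (hmin.trans hup)
  have hall' := (ENNReal.ofReal_le_ofReal_iff (by positivity)).1 hall
  have hCu : C * u ≤ η / 4 := by
    rw [lt_div_iff₀ (by positivity)] at hu5
    linarith only [hu5, hu]
  have h6 : C * u * (X + N * a * n1) ≤ η / 4 * (X + N * a * n1) :=
    mul_le_mul_of_nonneg_right hCu (by positivity)
  have h7 : 0 ≤ N * a * n1 := by positivity
  have h8 : 0 ≤ η * (N * a * n1) := mul_nonneg hη.le h7
  linarith only [hall', hj2, h6, h8]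

/-- **Weighted number of excitations**, fixed displacement. -/
theorem Gc_point (hU : UStatement) (θ CM : ℝ) (y : Fin 3 → ℝ) {ε : ℝ} (hε : 0 < ε) :
    ∃ c u₀ : ℝ, 0 < c ∧ 0 < u₀ ∧ ∀ u : ℝ, 0 < u → u < u₀ →
    ∃ a₀ : ℝ, 0 < a₀ ∧ ∀ (N : ℕ) (W f Q : ℝ → ℝ) (R₀ R a : ℝ) (𝒱 : T3 → ℝ≥0∞)
      (ψ : (Fin N → T3) → ℂ), a < a₀ → RegO θ CM c u W f Q R₀ R a 𝒱 ψ →
      |Dw y (a / u ^ 160) ψ / (N * u ^ 160) - G3 y| ≤ ε := by
  set b : ℝ := nr y ^ 2 / 4 + 1 with hbdef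
  have hb1 : nr y ^ 2 / 4 ≤ b := by rw [hbdef]; linarith
  have hb : 1 ≤ b := by
    have := sq_nonneg (nr y)
    rw [hbdef]; linarith
  have hb0 : 0 < b := by linarith
  set κ : ℝ := min (1 / 8) (ε / 12) / b with hκ
  have hm0 : 0 < min (1 / 8) (ε / 12) := lt_min (by norm_num) (by positivity)
  have hκ0 : 0 < κ := by positivity
  have hκbe : κ * b = min (1 / 8) (ε / 12) := by rw [hκ]; field_simp
  have hκb : κ * b ≤ 1 / 8 := by rw [hκbe]; exact min_le_left _ _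
  have hκb2 : κ * b ≤ ε / 12 := by rw [hκbe]; exact min_le_right _ _
  have hκ8 : κ ≤ 1 / 8 := by
    have : κ * 1 ≤ κ * b := mul_le_mul_of_nonneg_left hb hκ0.le
    linarith
  set η : ℝ := min (1 / 100) (ε * κ / 20) with hη
  have hη0 : 0 < η := lt_min (by norm_num) (by positivity)
  have hη1 : η ≤ 1 / 100 := min_le_left _ _
  have hη2 : 5 * η ≤ ε / 4 * κ := by
    have : η ≤ ε * κ / 20 := min_le_right _ _
    linarith
  obtain ⟨c1, v1, hc1, hv1, s1⟩ := F2_step (θ := θ) (CM := CM) (b := 1) (lam := -(1 / 8)) ol_statement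
    oj_statement hU one_pos
    (by rw [abs_neg, abs_of_pos (by norm_num)]; norm_num)
    (by rw [abs_neg, abs_of_pos (by norm_num)]) hη0
  obtain ⟨c2, v2, hc2, hv2, s2⟩ := Gc_step (θ := θ) (CM := CM) (y := y) (b := b) (lam := κ) hU hb1
    (by rwa [abs_of_pos hκ0]) (by rwa [abs_of_pos hκ0]) hη0 (oj_cos_up hb1 hκ0)
  obtain ⟨c3, v3, hc3, hv3, s3⟩ := Gc_step (θ := θ) (CM := CM) (y := y) (b := b) (lam := -κ) hU hb1
    (by rwa [abs_neg, abs_of_pos hκ0]) (by rwa [abs_neg, abs_of_pos hκ0]) hη0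
    (oj_cos_dn hb1 hκ0.le hκb)
  refine ⟨min c1 (min c2 c3), min v1 (min v2 v3), lt_min hc1 (lt_min hc2 hc3),
    lt_min hv1 (lt_min hv2 hv3), fun u hu hlt => ?_⟩
  obtain ⟨a1, ha1, t1⟩ := s1 u hu (hlt.trans_le (min_le_left _ _))
  obtain ⟨a2, ha2, t2⟩ := s2 u hu (hlt.trans_le ((min_le_right _ _).trans (min_le_left _ _)))
  obtain ⟨a3, ha3, t3⟩ := s3 u hu (hlt.trans_le ((min_le_right _ _).trans (min_le_right _ _)))
  refine ⟨min a1 (min a2 a3), lt_min ha1 (lt_min ha2 ha3), fun N W f Q R₀ R a 𝒱 ψ hlta hr => ?_⟩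
  have ha := hr.sc.a_pos
  obtain ⟨e1, e2, hN0⟩ := F2_one ha hu hr.Na
  have r1 := t1 N W f Q R₀ R a 𝒱 ψ (hlta.trans_le (min_le_left _ _))
    (hr.mono hu.le (min_le_left _ _))
  have r2 := t2 N W f Q R₀ R a 𝒱 ψ (hlta.trans_le ((min_le_right _ _).trans (min_le_left _ _)))
    (hr.mono hu.le ((min_le_right _ _).trans (min_le_left _ _)))
  have r3 := t3 N W f Q R₀ R a 𝒱 ψ (hlta.trans_le ((min_le_right _ _).trans (min_le_right _ _)))
    (hr.mono hu.le ((min_le_right _ _).trans (min_le_right _ _)))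
  rw [one_mul] at r1
  refine F2_num (X := N ^ 2 * a * u ^ 160) (A := N * a) (q := N * u ^ 160) (κ := κ) (b := b) (η := η)
    (F := G3 y) (Jp := Jf 0 + κ * (((1 + κ * b) ^ 2)⁻¹ * G3 y))
    (Jm := Jf 0 - κ * (((1 - κ * b) ^ 2)⁻¹ * G3 y)) (J1 := Jb 1 (-(1 / 8))) (J0 := Jf 0)
    (n1 := Db ((a / u ^ 160) ^ 2) ψ) (by positivity) (by positivity) (by ring) hκ0 hb0 hκb hκb2 hη0
    hη1 hη2 (G3_nonneg y) (G3_le_two y) ?_ (by linarith) (by linarith)
    ?_ ?_ ?_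
  · have h := Jb_dn (b := 1) (κ := 1 / 8) (by norm_num) (by norm_num) (by norm_num)
    refine h.trans ?_
    have := Fb_le_two (b := 1) (by norm_num)
    gcongr
  · linarith
  · have e : Jf 0 + κ * (((1 + κ * b) ^ 2)⁻¹ * G3 y) - Jf 0 - η
        = κ * ((1 + κ * b) ^ 2)⁻¹ * G3 y - η := by ring
    rw [e]
    linarith
  · have e : Jf 0 - κ * (((1 - κ * b) ^ 2)⁻¹ * G3 y) - Jf 0 - η
        = -(κ * ((1 - κ * b) ^ 2)⁻¹) * G3 y - η := by ring
    rw [e]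
    linarith

end Pool.Agent.Lib.MP_4952d6_mp.O
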