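import Pool.Agent.Lib.MP_4952d6_mp.Pd.D04

/-!
# Density matrix: uniformity in the displacement
-/

set_option autoImplicit false
set_option linter.unusedSectionVars false
set_option linter.unusedVariables false
open MeasureTheory Function Filter Topology Set ComplexConjugate
open scoped ENNReal

namespace Pool.Agent.Lib.MP_4952d6_mp.O

open LB

/-- As `OGStatement`, for all `b > 0`. -/
theorem og_all (hU : UStatement) (θ CM b ε : ℝ) (hb0 : 0 < b) (hε : 0 < ε) :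
    ∃ c u₀ : ℝ, 0 < c ∧ 0 < u₀ ∧ ∀ u : ℝ, 0 < u → u < u₀ →
    ∃ a₀ : ℝ, 0 < a₀ ∧ ∀ (N : ℕ) (W f Q : ℝ → ℝ) (R₀ R a : ℝ) (𝒱 : T3 → ℝ≥0∞)
      (ψ : (Fin N → T3) → ℂ), a < a₀ → RegO θ CM c u W f Q R₀ R a 𝒱 ψ →
      |Db (b * (a / u ^ 160) ^ 2) ψ / (N * u ^ 160) - Fb b| ≤ ε := by
  have hL := ol_statement
  have hJ := oj_statement
  set b' : ℝ := max b 1 with hb'
  have hb1 : 1 ≤ b' := le_max_right _ _
  have hbb : b ≤ b' := le_max_left _ _
  have hb'0 : 0 < b' := by linarith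
  set κ : ℝ := min (1 / 8) (ε / 12) / b' with hκ
  have hm0 : 0 < min (1 / 8) (ε / 12) := lt_min (by norm_num) (by positivity)
  have hκ0 : 0 < κ := by positivity
  have hκbe : κ * b' = min (1 / 8) (ε / 12) := by rw [hκ]; field_simp
  have hκbb : κ * b ≤ κ * b' := mul_le_mul_of_nonneg_left hbb hκ0.le
  have hκb : κ * b ≤ 1 / 8 := hκbb.trans (by rw [hκbe]; exact min_le_left _ _)
  have hκb2 : κ * b ≤ ε / 12 := hκbb.trans (by rw [hκbe]; exact min_le_right _ _)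
  have hκ8 : κ ≤ 1 / 8 := by
    have h1 : κ * 1 ≤ κ * b' := mul_le_mul_of_nonneg_left hb1 hκ0.le
    have h2 : κ * b' ≤ 1 / 8 := by rw [hκbe]; exact min_le_left _ _
    linarith
  set η : ℝ := min (1 / 100) (ε * κ / 20) with hη
  have hη0 : 0 < η := lt_min (by norm_num) (by positivity)
  have hη1 : η ≤ 1 / 100 := min_le_left _ _
  have hη2 : 5 * η ≤ ε / 4 * κ := by
    have : η ≤ ε * κ / 20 := min_le_right _ _
    linarith
  obtain ⟨c1, v1, hc1, hv1, s1⟩ := F2_step (θ := θ) (CM := CM) (b := 1) (lam := -(1 / 8)) hL hJ hU one_pos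
    (by rw [abs_neg, abs_of_pos (by norm_num)]; norm_num)
    (by rw [abs_neg, abs_of_pos (by norm_num)]) hη0
  obtain ⟨c2, v2, hc2, hv2, s2⟩ := F2_step (θ := θ) (CM := CM) (b := b) (lam := κ) hL hJ hU hb0
    (by rwa [abs_of_pos hκ0]) (by rwa [abs_of_pos hκ0]) hη0
  obtain ⟨c3, v3, hc3, hv3, s3⟩ := F2_step (θ := θ) (CM := CM) (b := b) (lam := -κ) hL hJ hU hb0
    (by rwa [abs_neg, abs_of_pos hκ0]) (by rwa [abs_neg, abs_of_pos hκ0]) hη0
  refine ⟨min c1 (min c2 c3), min v1 (min v2 v3), lt_min hc1 (lt_min hc2 hc3),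
    lt_min hv1 (lt_min hv2 hv3), fun u hu hlt => ?_⟩
  obtain ⟨a1, ha1, t1⟩ := s1 u hu (hlt.trans_le (min_le_left _ _))
  obtain ⟨a2, ha2, t2⟩ := s2 u hu (hlt.trans_le ((min_le_right _ _).trans (min_le_left _ _)))
  obtain ⟨a3, ha3, t3⟩ := s3 u hu (hlt.trans_le ((min_le_right _ _).trans (min_le_right _ _)))
  refine ⟨min a1 (min a2 a3), lt_min ha1 (lt_min ha2 ha3), fun N W f Q R₀ R a 𝒱 ψ hlta hr => ?_⟩
  have ha := hr.sc.a_pos
  obtain ⟨e1, e2, hN0⟩ := F2_one ha hu hr.Na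
  have r1 := t1 N W f Q R₀ R a 𝒱 ψ (hlta.trans_le (min_le_left _ _))
    (hr.mono hu.le (min_le_left _ _))
  have r2 := t2 N W f Q R₀ R a 𝒱 ψ (hlta.trans_le ((min_le_right _ _).trans (min_le_left _ _)))
    (hr.mono hu.le ((min_le_right _ _).trans (min_le_left _ _)))
  have r3 := t3 N W f Q R₀ R a 𝒱 ψ (hlta.trans_le ((min_le_right _ _).trans (min_le_right _ _)))
    (hr.mono hu.le ((min_le_right _ _).trans (min_le_right _ _)))
  rw [one_mul] at r1
  refine F2_num (X := N ^ 2 * a * u ^ 160) (A := N * a) (q := N * u ^ 160) (κ := κ) (b := b) (η := η)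
    (F := Fb b) (Jp := Jb b κ) (Jm := Jb b (-κ)) (J1 := Jb 1 (-(1 / 8))) (J0 := Jf 0)
    (n1 := Db ((a / u ^ 160) ^ 2) ψ) (by positivity) (by positivity) (by ring) hκ0 hb0 hκb hκb2 hη0
    hη1 hη2 (Fb_nonneg hb0.le) (Fb_le_two hb0.le) ?_ (Jb_up hb0 hκ0 hκb) (Jb_dn hb0.le hκ0.le hκb)
    ?_ ?_ ?_
  · have h := Jb_dn (b := 1) (κ := 1 / 8) (by norm_num) (by norm_num) (by norm_num)
    refine h.trans ?_
    have := Fb_le_two (b := 1) (by norm_num)
    gcongr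
  · linarith
  · linarith
  · linarith

/-- `Fb b → 0` as `b → 0`. -/
lemma Fb_tendsto : Tendsto Fb (𝓝[>] 0) (𝓝 0) := by
  have h : Tendsto (fun b : ℝ => ∫ r in Ioi (0:ℝ), (1 - Real.exp (-(b * r ^ 2))) * (r ^ 2 * Jgd (r ^ 2)))
      (𝓝[>] 0) (𝓝 (∫ r in Ioi (0:ℝ), (0:ℝ))) := by
    refine tendsto_integral_filter_of_dominated_convergence (fun r => ‖r ^ 2 * Jgd (r ^ 2)‖) ?_ ?_ ?_ ?_
    · filter_upwards [self_mem_nhdsWithin] with b hb
      exact (wJ_integrable (le_of_lt hb)).aestronglyMeasurable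
    · filter_upwards [self_mem_nhdsWithin] with b hb
      refine Eventually.of_forall fun r => ?_
      rw [norm_mul]
      have h1 : ‖1 - Real.exp (-(b * r ^ 2))‖ ≤ 1 := by
        rw [Real.norm_eq_abs, abs_of_nonneg (w_nonneg (le_of_lt hb) r)]
        exact w_le_one b r
      have h2 := mul_le_mul_of_nonneg_right h1 (norm_nonneg (r ^ 2 * Jgd (r ^ 2)))
      rwa [one_mul] at h2
    · exact Jgd0_integrable.norm
    · refine Eventually.of_forall fun r => ?_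
      have hc : Continuous (fun b : ℝ => (1 - Real.exp (-(b * r ^ 2))) * (r ^ 2 * Jgd (r ^ 2))) := by
        fun_prop
      have h := hc.tendsto 0
      have e : (1 - Real.exp (-((0:ℝ) * r ^ 2))) * (r ^ 2 * Jgd (r ^ 2)) = 0 := by
        rw [zero_mul, neg_zero, Real.exp_zero, sub_self, zero_mul]
      rw [e] at h
      exact h.mono_left nhdsWithin_le_nhds
  rw [integral_zero] at h
  have h2 := h.const_mul (1 / (4 * Real.pi ^ 2))
  rw [mul_zero] at h2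
  exact h2

lemma wv_cont_left (x : Fin 3 → ℝ) : Continuous fun y => wv y x := by
  unfold wv
  fun_prop

lemma G3_continuous : Continuous G3 := by
  unfold G3
  refine continuous_const.mul ?_
  refine continuous_of_dominated (bound := fun x : Fin 3 → ℝ => ‖Jgd (nr x ^ 2)‖) ?_ ?_ ?_ ?_
  · exact fun y => (wj_integrable y).aestronglyMeasurable
  · intro y
    refine Eventually.of_forall fun x => ?_
    unfold wj
    rw [norm_mul]
    have h1 : ‖wv y x‖ ≤ 1 := by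
      rw [Real.norm_eq_abs, abs_of_nonneg (wv_nonneg y x)]
      exact wv_le_one y x
    have h2 := mul_le_mul_of_nonneg_right h1 (norm_nonneg (Jgd (nr x ^ 2)))
    rwa [one_mul] at h2
  · exact Jnr_integrable.norm
  · refine Eventually.of_forall fun x => ?_
    unfold wj
    exact (wv_cont_left x).mul continuous_const

/-! ### Comparison of displacements -/

/-- Monotonicity of `Dm` for bounded multipliers. -/
lemma Dm_mono {N : ℕ} {ψ : (Fin N → T3) → ℂ} (hψ : MemLp ψ 2 (piN (Fin N)))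
    {φ φ' : (Fin 3 → ℤ) → ℝ} {C : ℝ} (h : ∀ p, φ p ≤ φ' p) (h1 : ∀ p, |φ p| ≤ C)
    (h2 : ∀ p, |φ' p| ≤ C) : Dm φ ψ ≤ Dm φ' ψ := by
  have hs := (parseval_sq hψ).summable
  unfold Dm
  refine Finset.sum_le_sum fun j _ => ?_
  have g1 : ∀ χ : (Fin 3 → ℤ) → ℝ, (∀ p, |χ p| ≤ C) →
      Summable fun k : Fin N → Fin 3 → ℤ => χ (k j) * ‖fc ψ k‖ ^ 2 := by
    intro χ hχ
    refine Summable.of_norm_bounded (hs.mul_left C) fun k => ?_
    rw [Real.norm_eq_abs, abs_mul, abs_of_nonneg (sq_nonneg ‖fc ψ k‖)]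
    exact mul_le_mul_of_nonneg_right (hχ _) (sq_nonneg _)
  exact (g1 φ h1).tsum_le_tsum (fun k => mul_le_mul_of_nonneg_right (h _) (sq_nonneg _)) (g1 φ' h2)

lemma Dm_add {N : ℕ} {ψ : (Fin N → T3) → ℂ} (hψ : MemLp ψ 2 (piN (Fin N)))
    {φ φ' : (Fin 3 → ℤ) → ℝ} {C : ℝ} (h1 : ∀ p, |φ p| ≤ C)
    (h2 : ∀ p, |φ' p| ≤ C) : Dm (fun p => φ p + φ' p) ψ = Dm φ ψ + Dm φ' ψ := by
  have hs := (parseval_sq hψ).summable
  unfold Dm
  rw [← Finset.sum_add_distrib]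
  refine Finset.sum_congr rfl fun j _ => ?_
  have g1 : ∀ χ : (Fin 3 → ℤ) → ℝ, (∀ p, |χ p| ≤ C) →
      Summable fun k : Fin N → Fin 3 → ℤ => χ (k j) * ‖fc ψ k‖ ^ 2 := by
    intro χ hχ
    refine Summable.of_norm_bounded (hs.mul_left C) fun k => ?_
    rw [Real.norm_eq_abs, abs_mul, abs_of_nonneg (sq_nonneg ‖fc ψ k‖)]
    exact mul_le_mul_of_nonneg_right (hχ _) (sq_nonneg _)
  rw [← (g1 φ h1).tsum_add (g1 φ' h2)]
  exact tsum_congr fun k => by ring

lemma Dm_smul {N : ℕ} (ψ : (Fin N → T3) → ℂ) (φ : (Fin 3 → ℤ) → ℝ) (c : ℝ) :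
    Dm (fun p => c * φ p) ψ = c * Dm φ ψ := by
  unfold Dm
  rw [Finset.mul_sum]
  refine Finset.sum_congr rfl fun j _ => ?_
  rw [← tsum_mul_left]
  exact tsum_congr fun k => by ring

lemma min_le_exp {s : ℝ} (hs : 0 ≤ s) : min s 1 ≤ 2 * (1 - Real.exp (-s)) := by
  have h1 : Real.exp (-s) * (1 + s) ≤ 1 := by
    have h2 := Real.add_one_le_exp s
    have h3 := Real.exp_pos (-s)
    have h4 : Real.exp (-s) * Real.exp s = 1 := by rw [← Real.exp_add]; simp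
    nlinarith
  rcases le_total s 1 with h | h
  · rw [min_eq_left h]
    have h3 := Real.exp_pos (-s)
    nlinarith
  · rw [min_eq_right h]
    have h3 : Real.exp (-s) ≤ Real.exp (-1) := Real.exp_le_exp.2 (by linarith)
    have h4 : Real.exp (-1) ≤ 1 / 2 := by
      have h5 := Real.add_one_le_exp (1 : ℝ)
      have h6 : Real.exp (-1) * Real.exp 1 = 1 := by rw [← Real.exp_add]; simp
      have h7 := Real.exp_pos (-1 : ℝ)
      nlinarith
    linarith

/-- The cosine weight is dominated by the exponential one. -/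
lemma wv_le_exp {y x : Fin 3 → ℝ} {b : ℝ} (hb : nr y ^ 2 / 4 ≤ b) :
    wv y x ≤ 2 * (1 - Real.exp (-(b * nr x ^ 2))) := by
  have hb0 : 0 ≤ b := le_trans (by positivity) hb
  refine le_trans ?_ (min_le_exp (by positivity))
  refine le_min ?_ (wv_le_one y x)
  exact (wv_le_sq y x).trans (mul_le_mul_of_nonneg_right hb (sq_nonneg _))

lemma Dw_le_Db {N : ℕ} {ψ : (Fin N → T3) → ℂ} (hψ : MemLp ψ 2 (piN (Fin N))) {y : Fin 3 → ℝ}
    {b : ℝ} (hb : nr y ^ 2 / 4 ≤ b) (l : ℝ) : Dw y l ψ ≤ 2 * Db (b * l ^ 2) ψ := by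
  have hb0 : 0 ≤ b := le_trans (by positivity) hb
  unfold Dw Db
  rw [← Dm_smul]
  refine Dm_mono (C := 2) hψ (fun p => ?_) (fun p => ?_) (fun p => ?_)
  · have h := wv_le_exp (y := y) (x := pm l p) hb
    rw [pm_nr] at h
    have e : b * (l ^ 2 * ksq p) = b * l ^ 2 * ksq p := by ring
    rwa [e] at h
  · rw [abs_of_nonneg (wv_nonneg _ _)]
    have := wv_le_one y (pm l p)
    linarith
  · have h1 : 0 ≤ b * l ^ 2 * ksq p := mul_nonneg (by positivity) (ksq_nonneg p)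
    have h2 : Real.exp (-(b * l ^ 2 * ksq p)) ≤ 1 := by
      rw [Real.exp_le_one_iff]; linarith
    have h3 := Real.exp_pos (-(b * l ^ 2 * ksq p))
    rw [abs_of_nonneg (by linarith)]
    linarith

/-- The bound for all displacements. -/
lemma wv_le_exp_all {y x : Fin 3 → ℝ} {b : ℝ} (hb : 0 < b) :
    wv y x ≤ 2 * max 1 (nr y ^ 2 / (4 * b)) * (1 - Real.exp (-(b * nr x ^ 2))) := by
  set M : ℝ := max 1 (nr y ^ 2 / (4 * b)) with hM
  have hM1 : 1 ≤ M := le_max_left _ _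
  have hM2 : nr y ^ 2 / (4 * b) ≤ M := le_max_right _ _
  have h1 := min_le_exp (s := b * nr x ^ 2) (by positivity)
  have h2 : wv y x ≤ M * min (b * nr x ^ 2) 1 := by
    rcases le_total (b * nr x ^ 2) 1 with h | h
    · rw [min_eq_left h]
      have h3 : nr y ^ 2 / 4 ≤ M * b := by
        rw [div_le_iff₀ (by positivity)] at hM2
        linarith
      calc wv y x ≤ nr y ^ 2 / 4 * nr x ^ 2 := wv_le_sq y x
        _ ≤ M * b * nr x ^ 2 := mul_le_mul_of_nonneg_right h3 (sq_nonneg _)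
        _ = M * (b * nr x ^ 2) := by ring
    · rw [min_eq_right h, mul_one]
      exact (wv_le_one y x).trans hM1
  have h3 := mul_le_mul_of_nonneg_left h1 (show 0 ≤ M by linarith)
  linarith

lemma Dw_le_Db_all {N : ℕ} {ψ : (Fin N → T3) → ℂ} (hψ : MemLp ψ 2 (piN (Fin N)))
    (y : Fin 3 → ℝ) {b : ℝ} (hb : 0 < b) (l : ℝ) :
    Dw y l ψ ≤ 2 * max 1 (nr y ^ 2 / (4 * b)) * Db (b * l ^ 2) ψ := by
  unfold Dw Db
  rw [← Dm_smul]
  set M : ℝ := max 1 (nr y ^ 2 / (4 * b)) with hM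
  have hM1 : 1 ≤ M := le_max_left _ _
  refine Dm_mono (C := 2 * M) hψ (fun p => ?_) (fun p => ?_) (fun p => ?_)
  · have h := wv_le_exp_all (y := y) (x := pm l p) hb
    rw [pm_nr] at h
    have e : b * (l ^ 2 * ksq p) = b * l ^ 2 * ksq p := by ring
    rwa [e] at h
  · rw [abs_of_nonneg (wv_nonneg _ _)]
    have := wv_le_one y (pm l p)
    linarith
  · have h1 : 0 ≤ b * l ^ 2 * ksq p := mul_nonneg (by positivity) (ksq_nonneg p)
    have h2 : Real.exp (-(b * l ^ 2 * ksq p)) ≤ 1 := by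
      rw [Real.exp_le_one_iff]; linarith
    have h3 := Real.exp_pos (-(b * l ^ 2 * ksq p))
    have h4 : 0 ≤ 1 - Real.exp (-(b * l ^ 2 * ksq p)) := by linarith
    rw [abs_of_nonneg (by positivity)]
    have h5 : 2 * M * (1 - Real.exp (-(b * l ^ 2 * ksq p))) ≤ 2 * M * 1 :=
      mul_le_mul_of_nonneg_left (by linarith) (by linarith)
    linarith

/-- Difference of two cosine weights. -/
lemma wv_diff (y y' x : Fin 3 → ℝ) {s : ℝ} (hs : 0 < s) :
    |wv y x - wv y' x| ≤ s / 2 * wv (y + y') x + 1 / (2 * s) * wv (y - y') x := by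
  set A := ∑ α, x α * y α with hA
  set B := ∑ α, x α * y' α with hB
  have e1 : ∑ α, x α * (y + y') α = A + B := by
    rw [hA, hB, ← Finset.sum_add_distrib]
    exact Finset.sum_congr rfl fun α _ => by rw [Pi.add_apply]; ring
  have e2 : ∑ α, x α * (y - y') α = A - B := by
    rw [hA, hB, ← Finset.sum_sub_distrib]
    exact Finset.sum_congr rfl fun α _ => by rw [Pi.sub_apply]; ring
  have e3 : wv (y + y') x = Real.sin ((A + B) / 2) ^ 2 := by
    unfold wv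
    rw [e1, Real.sin_sq_eq_half_sub]
    have : 2 * ((A + B) / 2) = A + B := by ring
    rw [this]
    ring
  have e4 : wv (y - y') x = Real.sin ((A - B) / 2) ^ 2 := by
    unfold wv
    rw [e2, Real.sin_sq_eq_half_sub]
    have : 2 * ((A - B) / 2) = A - B := by ring
    rw [this]
    ring
  have e5 : wv y x - wv y' x = Real.sin ((A + B) / 2) * Real.sin ((A - B) / 2) := by
    unfold wv
    rw [← hA, ← hB]
    have h := Real.cos_sub_cos B A
    have h2 : (B + A) / 2 = (A + B) / 2 := by ring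
    have h3 : (B - A) / 2 = -((A - B) / 2) := by ring
    rw [h2, h3, Real.sin_neg] at h
    linarith
  rw [e3, e4, e5]
  set p := Real.sin ((A + B) / 2)
  set q := Real.sin ((A - B) / 2)
  rw [abs_mul]
  have h0 : 0 ≤ (s * |p| - |q|) ^ 2 / (2 * s) := by positivity
  have h1 : (s * |p| - |q|) ^ 2 / (2 * s) = s / 2 * p ^ 2 + 1 / (2 * s) * q ^ 2 - |p| * |q| := by
    have hp : |p| ^ 2 = p ^ 2 := sq_abs p
    have hq : |q| ^ 2 = q ^ 2 := sq_abs q
    rw [← hp, ← hq]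
    field_simp
    ring
  linarith

lemma Dw_diff {N : ℕ} {ψ : (Fin N → T3) → ℂ} (hψ : MemLp ψ 2 (piN (Fin N))) (y y' : Fin 3 → ℝ)
    (l : ℝ) {s : ℝ} (hs : 0 < s) :
    |Dw y l ψ - Dw y' l ψ| ≤ s / 2 * Dw (y + y') l ψ + 1 / (2 * s) * Dw (y - y') l ψ := by
  have hw : ∀ (z : Fin 3 → ℝ) (p : Fin 3 → ℤ), |wv z (pm l p)| ≤ 1 := fun z p => by
    rw [abs_of_nonneg (wv_nonneg _ _)]; exact wv_le_one _ _
  have key : ∀ y y' : Fin 3 → ℝ, (∀ p : Fin 3 → ℤ, wv y (pm l p) ≤ wv y' (pm l p)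
      + (s / 2 * wv (y + y') (pm l p) + 1 / (2 * s) * wv (y - y') (pm l p))) →
      Dw y l ψ ≤ Dw y' l ψ + (s / 2 * Dw (y + y') l ψ + 1 / (2 * s) * Dw (y - y') l ψ) := by
    intro y y' h
    set C : ℝ := 1 + s / 2 + 1 / (2 * s) with hC
    have hs2 : 0 < s / 2 := by positivity
    have hs3 : 0 < 1 / (2 * s) := by positivity
    have b1 : ∀ p : Fin 3 → ℤ, |wv y' (pm l p)| ≤ C := fun p => (hw y' p).trans (by linarith)
    have b2 : ∀ p : Fin 3 → ℤ, |s / 2 * wv (y + y') (pm l p)| ≤ C := fun p => by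
      rw [abs_mul, abs_of_pos hs2]
      have := mul_le_mul_of_nonneg_left (hw (y + y') p) hs2.le
      linarith
    have b3 : ∀ p : Fin 3 → ℤ, |1 / (2 * s) * wv (y - y') (pm l p)| ≤ C := fun p => by
      rw [abs_mul, abs_of_pos hs3]
      have := mul_le_mul_of_nonneg_left (hw (y - y') p) hs3.le
      linarith
    have b4 : ∀ p : Fin 3 → ℤ, |s / 2 * wv (y + y') (pm l p)
        + 1 / (2 * s) * wv (y - y') (pm l p)| ≤ 2 * C := fun p =>
      (abs_add_le _ _).trans (by linarith [b2 p, b3 p])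
    have hC0 : 0 ≤ C := by positivity
    have e1 := Dm_add hψ b2 b3
    have e2 := Dm_add hψ (fun p => (b1 p).trans (by linarith : C ≤ 2 * C)) b4
    have e3 := Dm_smul ψ (fun p => wv (y + y') (pm l p)) (s / 2)
    have e4 := Dm_smul ψ (fun p => wv (y - y') (pm l p)) (1 / (2 * s))
    have m := Dm_mono (C := 3 * C) hψ h (fun p => (hw y p).trans (by linarith))
      (fun p => (abs_add_le _ _).trans (by linarith [b1 p, b4 p]))
    unfold Dw
    rw [e2, e1, e3, e4] at m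
    exact m
  have k1 := key y y' fun p => by
    have := (abs_le.1 (wv_diff y y' (pm l p) hs)).2
    linarith
  have k2 := key y' y fun p => by
    have h1 := (abs_le.1 (wv_diff y y' (pm l p) hs)).1
    have h2 : wv (y' - y) (pm l p) = wv (y - y') (pm l p) := by
      unfold wv
      have : ∑ α, pm l p α * (y' - y) α = -∑ α, pm l p α * (y - y') α := by
        rw [← Finset.sum_neg_distrib]
        exact Finset.sum_congr rfl fun α _ => by rw [Pi.sub_apply, Pi.sub_apply]; ring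
      rw [this, Real.cos_neg]
    rw [h2, add_comm y' y]
    linarith
  have h3 : Dw (y' - y) l ψ = Dw (y - y') l ψ := by
    unfold Dw
    congr 1
    funext p
    unfold wv
    have : ∑ α, pm l p α * (y' - y) α = -∑ α, pm l p α * (y - y') α := by
      rw [← Finset.sum_neg_distrib]
      exact Finset.sum_congr rfl fun α _ => by rw [Pi.sub_apply, Pi.sub_apply]; ring
    rw [this, Real.cos_neg]
  rw [h3, add_comm y' y] at k2
  rw [abs_le]
  constructor <;> linarith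

/-! ### Compactness -/

/-- The statement on a set of displacements. -/
def GcOn (θ CM ε : ℝ) (K : Set (Fin 3 → ℝ)) : Prop :=
  ∃ c u₀ : ℝ, 0 < c ∧ 0 < u₀ ∧ ∀ u : ℝ, 0 < u → u < u₀ →
    ∃ a₀ : ℝ, 0 < a₀ ∧ ∀ (N : ℕ) (W f Q : ℝ → ℝ) (R₀ R a : ℝ) (𝒱 : T3 → ℝ≥0∞)
      (ψ : (Fin N → T3) → ℂ), a < a₀ → RegO θ CM c u W f Q R₀ R a 𝒱 ψ →
      ∀ y ∈ K, |Dw y (a / u ^ 160) ψ / (N * u ^ 160) - G3 y| ≤ ε

lemma GcOn_local (hU : UStatement) (θ CM : ℝ) {ε : ℝ} (hε : 0 < ε) (y₀ : Fin 3 → ℝ) :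
    ∃ t ∈ 𝓝 y₀, GcOn θ CM ε t := by
  set s : ℝ := ε / 12 with hs
  have hs0 : 0 < s := by positivity
  -- small displacement
  have h1 := Metric.tendsto_nhds.1 Fb_tendsto (s * ε / 8) (by positivity)
  obtain ⟨b2', hb2', h2⟩ := mem_nhdsGT_iff_exists_Ioo_subset.1 h1
  have hb2'' : (0:ℝ) < b2' := hb2'
  set b2 : ℝ := b2' / 2 with hb2
  have hb20 : 0 < b2 := by positivity
  have h3 := h2 (show b2 ∈ Ioo (0:ℝ) b2' from ⟨hb20, by rw [hb2]; linarith⟩)
  simp only [Set.mem_ofPred_eq] at h3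
  rw [Real.dist_eq, sub_zero, abs_of_nonneg (Fb_nonneg hb20.le)] at h3
  set b1 : ℝ := (2 * nr y₀ + 1) ^ 2 / 4 + 1 with hb1
  have hb10 : 0 < b1 := by positivity
  obtain ⟨c1, v1, hc1, hv1, s1⟩ := og_all hU θ CM b1 1 hb10 one_pos
  obtain ⟨c2, v2, hc2, hv2, s2⟩ := og_all hU θ CM b2 (s * ε / 8) hb20 (by positivity)
  obtain ⟨c3, v3, hc3, hv3, s3⟩ := Gc_point hU θ CM y₀ (ε := ε / 4) (by positivity)
  -- the neighbourhood
  have n1 : ∀ᶠ y in 𝓝 y₀, nr (y - y₀) ^ 2 / 4 < b2 := by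
    have hc : Continuous fun y : Fin 3 → ℝ => nr (y - y₀) ^ 2 / 4 :=
      ((nr_cont.comp (continuous_id.sub continuous_const)).pow 2).div_const 4
    have h := hc.tendsto y₀
    have e : nr (y₀ - y₀) ^ 2 / 4 = 0 := by
      rw [sub_self, nr_sq]; simp
    rw [e] at h
    exact h.eventually_lt_const hb20
  have n2 : ∀ᶠ y in 𝓝 y₀, nr (y + y₀) ^ 2 / 4 < b1 := by
    have hc : Continuous fun y : Fin 3 → ℝ => nr (y + y₀) ^ 2 / 4 :=
      ((nr_cont.comp (continuous_id.add continuous_const)).pow 2).div_const 4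
    have h := hc.tendsto y₀
    refine h.eventually_lt_const ?_
    have e : nr (y₀ + y₀) = 2 * nr y₀ := by
      unfold nr
      have : ∑ α, (y₀ + y₀) α ^ 2 = 2 ^ 2 * ∑ α, y₀ α ^ 2 := by
        rw [Finset.mul_sum]
        exact Finset.sum_congr rfl fun α _ => by rw [Pi.add_apply]; ring
      rw [this, Real.sqrt_mul (by norm_num), Real.sqrt_sq (by norm_num)]
    rw [e, hb1]
    have := nr_nonneg y₀
    nlinarith
  have n3 : ∀ᶠ y in 𝓝 y₀, |G3 y₀ - G3 y| < ε / 4 := by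
    have h := Metric.tendsto_nhds.1 (G3_continuous.tendsto y₀) (ε / 4) (by positivity)
    filter_upwards [h] with y hy
    rwa [Real.dist_eq, abs_sub_comm] at hy
  refine ⟨_, (n1.and (n2.and n3)), min c1 (min c2 c3), min v1 (min v2 v3),
    lt_min hc1 (lt_min hc2 hc3), lt_min hv1 (lt_min hv2 hv3), fun u hu hlt => ?_⟩
  obtain ⟨a1, ha1, t1⟩ := s1 u hu (hlt.trans_le (min_le_left _ _))
  obtain ⟨a2, ha2, t2⟩ := s2 u hu (hlt.trans_le ((min_le_right _ _).trans (min_le_left _ _)))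
  obtain ⟨a3, ha3, t3⟩ := s3 u hu (hlt.trans_le ((min_le_right _ _).trans (min_le_right _ _)))
  refine ⟨min a1 (min a2 a3), lt_min ha1 (lt_min ha2 ha3),
    fun N W f Q R₀ R a 𝒱 ψ hlta hr y hy => ?_⟩
  obtain ⟨hy1, hy2, hy3⟩ := hy
  have ha := hr.sc.a_pos
  obtain ⟨e1, e2, hN0⟩ := F2_one ha hu hr.Na
  have r1 := t1 N W f Q R₀ R a 𝒱 ψ (hlta.trans_le (min_le_left _ _))
    (hr.mono hu.le (min_le_left _ _))
  have r2 := t2 N W f Q R₀ R a 𝒱 ψ (hlta.trans_le ((min_le_right _ _).trans (min_le_left _ _)))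
    (hr.mono hu.le ((min_le_right _ _).trans (min_le_left _ _)))
  have r3 := t3 N W f Q R₀ R a 𝒱 ψ (hlta.trans_le ((min_le_right _ _).trans (min_le_right _ _)))
    (hr.mono hu.le ((min_le_right _ _).trans (min_le_right _ _)))
  set l : ℝ := a / u ^ 160 with hl
  set q : ℝ := N * u ^ 160 with hq
  have hq0 : 0 < q := by positivity
  have m1 := Dw_le_Db hr.adm.1 hy2.le l
  have m2 := Dw_le_Db hr.adm.1 hy1.le l
  have m3 := Dw_diff hr.adm.1 y y₀ l hs0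
  have k1 : Db (b1 * l ^ 2) ψ ≤ 3 * q := by
    have h4 := (abs_le.1 r1).2
    have h5 := Fb_le_two hb10.le
    have h6 : Db (b1 * l ^ 2) ψ / q ≤ 3 := by linarith
    rwa [div_le_iff₀ hq0] at h6
  have k2 : Db (b2 * l ^ 2) ψ ≤ s * ε / 4 * q := by
    have h4 := (abs_le.1 r2).2
    have h6 : Db (b2 * l ^ 2) ψ / q ≤ s * ε / 4 := by linarith
    rwa [div_le_iff₀ hq0] at h6
  have k3 : |Dw y l ψ - Dw y₀ l ψ| ≤ ε / 2 * q := by
    refine m3.trans ?_
    have h4 : s / 2 * Dw (y + y₀) l ψ ≤ s / 2 * (6 * q) :=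
      mul_le_mul_of_nonneg_left (by linarith) (by positivity)
    have h5 : 1 / (2 * s) * Dw (y - y₀) l ψ ≤ 1 / (2 * s) * (s * ε / 2 * q) :=
      mul_le_mul_of_nonneg_left (by linarith) (by positivity)
    have h6 : s / 2 * (6 * q) = ε / 4 * q := by rw [hs]; ring
    have h7 : 1 / (2 * s) * (s * ε / 2 * q) = ε / 4 * q := by field_simp; norm_num
    linarith
  have k4 : |Dw y l ψ / q - Dw y₀ l ψ / q| ≤ ε / 2 := by
    rw [← sub_div, abs_div, abs_of_pos hq0, div_le_iff₀ hq0]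
    exact k3
  have t := abs_sub_le (Dw y l ψ / q) (Dw y₀ l ψ / q) (G3 y)
  have t' := abs_sub_le (Dw y₀ l ψ / q) (G3 y₀) (G3 y)
  linarith

theorem Gc_compact (hU : UStatement) (θ CM : ℝ) {ε : ℝ} (hε : 0 < ε) {K : Set (Fin 3 → ℝ)}
    (hK : IsCompact K) : GcOn θ CM ε K := by
  refine hK.induction_on (p := GcOn θ CM ε) ?_ ?_ ?_ ?_
  · exact ⟨1, 1, one_pos, one_pos, fun u hu _ => ⟨1, one_pos,
      fun N W f Q R₀ R a 𝒱 ψ _ _ y hy => absurd hy (Set.notMem_empty y)⟩⟩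
  · rintro s t hst ⟨c, u₀, hc, hu₀, h⟩
    refine ⟨c, u₀, hc, hu₀, fun u hu hlt => ?_⟩
    obtain ⟨a₀, ha₀, h'⟩ := h u hu hlt
    exact ⟨a₀, ha₀, fun N W f Q R₀ R a 𝒱 ψ hlta hr y hy =>
      h' N W f Q R₀ R a 𝒱 ψ hlta hr y (hst hy)⟩
  · rintro s t ⟨c, u₀, hc, hu₀, h⟩ ⟨c', u₀', hc', hu₀', h'⟩
    refine ⟨min c c', min u₀ u₀', lt_min hc hc', lt_min hu₀ hu₀', fun u hu hlt => ?_⟩
    obtain ⟨a₀, ha₀, g⟩ := h u hu (hlt.trans_le (min_le_left _ _))
    obtain ⟨a₀', ha₀', g'⟩ := h' u hu (hlt.trans_le (min_le_right _ _))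
    refine ⟨min a₀ a₀', lt_min ha₀ ha₀', fun N W f Q R₀ R a 𝒱 ψ hlta hr y hy => ?_⟩
    rcases hy with hy | hy
    · exact g N W f Q R₀ R a 𝒱 ψ (hlta.trans_le (min_le_left _ _))
        (hr.mono hu.le (min_le_left _ _)) y hy
    · exact g' N W f Q R₀ R a 𝒱 ψ (hlta.trans_le (min_le_right _ _))
        (hr.mono hu.le (min_le_right _ _)) y hy
  · intro y₀ _
    obtain ⟨t, ht, h⟩ := GcOn_local hU θ CM hε y₀
    exact ⟨t, mem_nhdsWithin_of_mem_nhds ht, h⟩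

/-- The two torus statements together. -/
theorem Gc_comb (hU : UStatement) (θ CM : ℝ) {ε b : ℝ} (hε : 0 < ε) (hb : 0 < b)
    {K : Set (Fin 3 → ℝ)} (hK : IsCompact K) :
    ∃ c u₀ : ℝ, 0 < c ∧ 0 < u₀ ∧ ∀ u : ℝ, 0 < u → u < u₀ →
    ∃ a₀ : ℝ, 0 < a₀ ∧ ∀ (N : ℕ) (W f Q : ℝ → ℝ) (R₀ R a : ℝ) (𝒱 : T3 → ℝ≥0∞)
      (ψ : (Fin N → T3) → ℂ), a < a₀ → RegO θ CM c u W f Q R₀ R a 𝒱 ψ →
      (∀ y ∈ K, |Dw y (a / u ^ 160) ψ / (N * u ^ 160) - G3 y| ≤ ε) ∧
      ∀ y : Fin 3 → ℝ, Dw y (a / u ^ 160) ψ / (N * u ^ 160)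
        ≤ 2 * max 1 (nr y ^ 2 / (4 * b)) * (8 / (3 * Real.sqrt Real.pi) + ε) := by
  obtain ⟨c1, v1, hc1, hv1, s1⟩ := Gc_compact hU θ CM hε hK
  obtain ⟨c2, v2, hc2, hv2, s2⟩ := og_all hU θ CM b ε hb hε
  refine ⟨min c1 c2, min v1 v2, lt_min hc1 hc2, lt_min hv1 hv2, fun u hu hlt => ?_⟩
  obtain ⟨a1, ha1, t1⟩ := s1 u hu (hlt.trans_le (min_le_left _ _))
  obtain ⟨a2, ha2, t2⟩ := s2 u hu (hlt.trans_le (min_le_right _ _))
  refine ⟨min a1 a2, lt_min ha1 ha2, fun N W f Q R₀ R a 𝒱 ψ hlta hr => ⟨?_, fun y => ?_⟩⟩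
  · exact t1 N W f Q R₀ R a 𝒱 ψ (hlta.trans_le (min_le_left _ _)) (hr.mono hu.le (min_le_left _ _))
  · have r2 := t2 N W f Q R₀ R a 𝒱 ψ (hlta.trans_le (min_le_right _ _))
      (hr.mono hu.le (min_le_right _ _))
    have ha := hr.sc.a_pos
    obtain ⟨e1, e2, hN0⟩ := F2_one ha hu hr.Na
    have hq0 : 0 < (N : ℝ) * u ^ 160 := by positivity
    have h1 := Dw_le_Db_all hr.adm.1 y hb (a / u ^ 160)
    have h2 : Db (b * (a / u ^ 160) ^ 2) ψ / (N * u ^ 160) ≤ 8 / (3 * Real.sqrt Real.pi) + ε := by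
      have h3 := (abs_le.1 r2).2
      have h4 := Fb_le hb.le
      linarith
    set M : ℝ := max 1 (nr y ^ 2 / (4 * b)) with hM
    have hM1 : 1 ≤ M := le_max_left _ _
    calc Dw y (a / u ^ 160) ψ / (N * u ^ 160)
        ≤ 2 * M * Db (b * (a / u ^ 160) ^ 2) ψ / (N * u ^ 160) :=
          div_le_div_of_nonneg_right h1 hq0.le
      _ = 2 * M * (Db (b * (a / u ^ 160) ^ 2) ψ / (N * u ^ 160)) := by ring
      _ ≤ _ := mul_le_mul_of_nonneg_left h2 (by linarith)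

/-- Balls for `nr` are compact. -/
lemma nr_compact (D : ℝ) : IsCompact {y : Fin 3 → ℝ | nr y ≤ D} := by
  refine Metric.isCompact_of_isClosed_isBounded (isClosed_le nr_cont continuous_const) ?_
  refine (Metric.isBounded_closedBall (x := (0 : Fin 3 → ℝ)) (r := max D 0)).subset fun y hy => ?_
  rw [mem_closedBall_zero_iff, pi_norm_le_iff_of_nonneg (le_max_right _ _)]
  intro α
  have h1 : y α ^ 2 ≤ ∑ β, y β ^ 2 :=
    Finset.single_le_sum (f := fun β => y β ^ 2) (fun β _ => sq_nonneg _) (Finset.mem_univ α)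
  have h2 : |y α| ≤ nr y := by
    unfold nr
    exact Real.abs_le_sqrt h1
  exact h2.trans ((show nr y ≤ D from hy).trans (le_max_left _ _))

end Pool.Agent.Lib.MP_4952d6_mp.O
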