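import Pool.Agent.Lib.MP_4952d6_mp.Pd.D05
import Pool.Agent.Lib.MP_4952d6_mp.Po.N12

/-!
# Density matrix: physical assembly
-/

set_option autoImplicit false
set_option linter.unusedSectionVars false
set_option linter.unusedVariables false
open MeasureTheory Function Filter Topology Set ComplexConjugate
open scoped ENNReal

namespace Pool.Agent.Lib.MP_4952d6_mp.O

/-- Excitations weighted by `(1 - cos (p·y)) / 2`, in the box of side `L`. -/
noncomputable def exF (N : ℕ) (L : ℝ) (y : Fin 3 → ℝ) (ψ : (Fin N → Fin 3 → ℝ) → ℂ) : ℝ :=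
  (1 / (N : ℝ)) * ∑ i : Fin N, ∑' k : Fin N → Fin 3 → ℤ,
    (1 - Real.cos ((2 * Real.pi / L) * ∑ α, (k i α : ℝ) * y α)) / 2 * ‖fourierC N L ψ k‖ ^ 2

lemma exF_eq {N : ℕ} {L l : ℝ} {y y' : Fin 3 → ℝ} (hL : 0 < L) {ψ : (Fin N → Fin 3 → ℝ) → ℂ}
    (hψ : AEStronglyMeasurable ψ (volume.restrict (box N L)))
    (h : ∀ α, l * y' α = y α / L) :
    exF N L y ψ = Dw y' l (TT N L ψ) / N := by
  unfold exF Dw Dm
  rw [one_div, inv_mul_eq_div]
  congr 1
  refine Finset.sum_congr rfl fun j _ => tsum_congr fun k => ?_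
  rw [fourierC_eq hL hψ]
  unfold wv pm
  have e : (2 * Real.pi / L) * ∑ α, (k j α : ℝ) * y α
      = ∑ α, 2 * Real.pi * l * (k j α : ℝ) * y' α := by
    rw [Finset.mul_sum]
    refine Finset.sum_congr rfl fun α _ => ?_
    have h1 := h α
    have h2 : y α = l * y' α * L := by rw [h1]; field_simp
    rw [h2]
    field_simp
  rw [e]

lemma nr_smul {c : ℝ} (hc : 0 ≤ c) (y : Fin 3 → ℝ) : nr (c • y) = c * nr y := by
  unfold nr
  have : ∑ α, (c • y) α ^ 2 = c ^ 2 * ∑ α, y α ^ 2 := by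
    rw [Finset.mul_sum]
    exact Finset.sum_congr rfl fun α _ => by rw [Pi.smul_apply, smul_eq_mul]; ring
  rw [this, Real.sqrt_mul (by positivity), Real.sqrt_sq hc]

lemma norm_le_nr (y : Fin 3 → ℝ) : ‖y‖ ≤ nr y := by
  rw [pi_norm_le_iff_of_nonneg (nr_nonneg y)]
  intro α
  have h1 : y α ^ 2 ≤ ∑ β, y β ^ 2 :=
    Finset.single_le_sum (f := fun β => y β ^ 2) (fun β _ => sq_nonneg _) (Finset.mem_univ α)
  unfold nr
  exact Real.abs_le_sqrt h1

/-- Physical form, for minimisers. -/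
def OEDStatement : Prop :=
  ∀ (m R₀ R : ℝ) (v : (Fin 3 → ℝ) → ℝ), 0 < m → 0 ≤ R₀ → R₀ < R → Integrable v →
    (∀ x, 0 ≤ v x) → (∀ x y : Fin 3 → ℝ, ∑ α, x α ^ 2 = ∑ α, y α ^ 2 → v x = v y) →
    (∀ x : Fin 3 → ℝ, R ^ 2 ≤ ∑ α, x α ^ 2 → v x = 0) → (0 < R₀ ∨ 0 < ∫ x, v x) →
    ∀ D ε b : ℝ, 0 < D → 0 < ε → 0 < b → ∃ ρ₁ : ℝ, 0 < ρ₁ ∧ ∀ ρ : ℝ, 0 < ρ → ρ < ρ₁ →
      ∃ N₁ : ℕ, ∀ N : ℕ, N₁ ≤ N → ∀ ψ : (Fin N → Fin 3 → ℝ) → ℂ,
        Admissible m R₀ v N (side ρ N) ψ →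
        (∀ φ : (Fin N → Fin 3 → ℝ) → ℂ, Admissible m R₀ v N (side ρ N) φ →
          energy m v N (side ρ N) ψ ≤ energy m v N (side ρ N) φ) →
        (∀ y : Fin 3 → ℝ, nr y * Real.sqrt (ρ * scatLen m R₀ v) ≤ D →
          |exF N (side ρ N) y ψ
            - G3 (Real.sqrt (ρ * scatLen m R₀ v) • y) * Real.sqrt (ρ * scatLen m R₀ v ^ 3)|
            ≤ ε * Real.sqrt (ρ * scatLen m R₀ v ^ 3)) ∧
        ∀ y : Fin 3 → ℝ, exF N (side ρ N) y ψ
          ≤ 2 * max 1 (ρ * scatLen m R₀ v * nr y ^ 2 / (4 * b))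
            * (8 / (3 * Real.sqrt Real.pi) + ε) * Real.sqrt (ρ * scatLen m R₀ v ^ 3)

/-- **Physical assembly.** -/
theorem oed_of (hU : UStatement) (hM : OMStatement) : OEDStatement := by
  intro m R₀ R v hm hR0 hR hv hv0 hrad hsupp hgen D ε b hD hε hb
  have hRpos : 0 < R := hR0.trans_lt hR
  have hσ := sig_pos
  have hvm : AEMeasurable v volume := hv.aestronglyMeasurable.aemeasurable
  obtain ⟨hA0, htr⟩ := F4_trunc hm hR0 hR hv hv0 hrad hsupp hgen
  set A : ℝ := scatLen m R₀ v with hA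
  obtain ⟨C, uM, hC, huM, hM'⟩ := hM m R₀ R v hm hR0 hR hv hv0 hrad hsupp hgen A hA0
  obtain ⟨c, uT, hc, huT, hT'⟩ := Gc_comb hU (2 * R / A) (2 * C) (ε := ε / 4) (by positivity) hb
    (nr_compact D)
  obtain ⟨δc, hδc, hcont⟩ := Metric.uniformContinuousOn_iff.1
    ((nr_compact D).uniformContinuousOn_of_continuous G3_continuous.continuousOn) (ε / 8)
    (by positivity)
  set um : ℝ := min uM uT with hum
  have hum0 : 0 < um := lt_min huM huT
  set δ : ℝ := min (min (1 / 10) (ε / 20)) (δc / (2 * (D + 1))) with hδ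
  have hδ0 : 0 < δ := lt_min (lt_min (by norm_num) (by positivity)) (by positivity)
  have hδ1 : δ ≤ 1 / 10 := (min_le_left _ _).trans (min_le_left _ _)
  have hδ2 : δ ≤ ε / 20 := (min_le_left _ _).trans (min_le_right _ _)
  have hδ3 : δ * D < δc := by
    have h1 : δ ≤ δc / (2 * (D + 1)) := min_le_right _ _
    rw [le_div_iff₀ (by positivity)] at h1
    nlinarith
  refine ⟨um ^ 320 / A ^ 3, by positivity, fun ρ hρ hρ1 => ?_⟩
  have hYA := Y_pos hρ hA0
  have hYA2 := Y_sq hρ hA0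
  obtain ⟨uA, huA0, huA⟩ := F4_root hYA
  have huAlt : uA < um := by
    rw [lt_div_iff₀ (by positivity), ← hYA2, ← huA, ← pow_mul] at hρ1
    exact lt_of_pow_lt_pow_left₀ 320 hum0.le hρ1
  obtain ⟨NM, hNM⟩ := hM' ρ uA hρ huA0 (huAlt.trans_le (min_le_left _ _)) huA
  set YA : ℝ := Real.sqrt (ρ * A ^ 3) with hYAd
  obtain ⟨W, f, Q, a, h, haA, haA', hV⟩ := htr δ (c * (A / 2) * (YA / 2) / (2 * sig)) hδ0
    (by positivity)
  have ha : 0 < a := h.a_pos
  have hA2a : A ≤ 2 * a := by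
    have := mul_le_mul_of_nonneg_right hδ1 hA0.le
    linarith
  obtain ⟨hr1, hr2, hr3⟩ := F4_ratio hρ ha haA hδ0.le (by linarith) haA'
  have hY := Y_pos hρ ha
  have hY2 := Y_sq hρ ha
  obtain ⟨u, hu0, hu⟩ := F4_root hY
  set Y : ℝ := Real.sqrt (ρ * a ^ 3) with hYd
  have hYA2Y : YA / 2 ≤ Y := by
    have h1 : (1 / 2 : ℝ) ≤ 1 - 3 * δ := by linarith
    have h2 := mul_le_mul_of_nonneg_right h1 hYA.le
    linarith
  have huuA : u ≤ uA := by
    have h1 : u ^ 160 ≤ uA ^ 160 := by rw [hu, huA]; exact hr2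
    exact le_of_pow_le_pow_left₀ (by norm_num) huA0.le h1
  obtain ⟨aT, haT, hT''⟩ := hT' u hu0 ((huuA.trans_lt huAlt).trans_le (min_le_right _ _))
  obtain ⟨NS, hNS1, hNS⟩ := F4_side hρ (show 0 < max (2 * R) (a / aT) from
    lt_max_of_lt_left (by linarith))
  refine ⟨max NM NS, fun N hN ψ hψ hmin => ?_⟩
  have hNM' : NM ≤ N := (le_max_left _ _).trans hN
  have hNS' : NS ≤ N := (le_max_right _ _).trans hN
  have hN1 : 1 ≤ N := hNS1.trans hNS'
  have hN0 : (0:ℝ) < N := by exact_mod_cast hN1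
  have hside := hNS N hNS'
  have hL := side_pos hρ hN1
  have hL3 := side_cube hρ hN1
  have hM2 := hNM N hNM'
  set L : ℝ := side ρ N with hLdef
  have h2R : 2 * R < L := (le_max_left _ _).trans_lt hside
  have hLa : a / L < aT := by
    have h1 : a / aT < L := (le_max_right _ _).trans_lt hside
    rw [div_lt_iff₀ haT] at h1
    rw [div_lt_iff₀ hL]; linarith
  obtain ⟨hV1, hV2, hV3⟩ := hV L h2R
  have hmin' := F4_min hm hL hR0 hvm hψ hmin
  have hadm := adm_TT hm hL hR0 hvm hψ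
  -- the windows
  set x : ℝ := a / A with hx
  have hx1 : x ≤ 1 := by rw [hx, div_le_one hA0]; exact haA
  have hx9 : 9 / 10 ≤ x := by
    rw [hx, le_div_iff₀ hA0]
    have := mul_le_mul_of_nonneg_right hδ1 hA0.le
    linarith
  have hx0 : 0 < x := by linarith
  set r : ℝ := u / uA with hr
  have hr0 : 0 < r := by positivity
  have hr320 : r ^ 320 = x ^ 3 := by
    rw [hr, hx, div_pow, div_pow]
    have e1 : u ^ 320 = ρ * a ^ 3 := by
      rw [← hY2, ← hu, ← pow_mul]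
    have e2 : uA ^ 320 = ρ * A ^ 3 := by
      rw [← hYA2, ← huA, ← pow_mul]
    rw [e1, e2]
    field_simp
  have eu : u = r * uA := by rw [hr]; field_simp
  have ea : a = x * A := by rw [hx]; field_simp
  have hw : ∀ k : ℕ, k ≤ 640 → 1 / 2 ≤ r ^ k ∧ r ^ k ≤ 1 := fun k hk =>
    (F4_pow hr0 hx9 hx1 hr320 hk).2
  have w1 := F4_win (hw 304 (by norm_num)).1 (hw 304 (by norm_num)).2 hx9 hx1
    (c := (A / L / uA ^ 152) ^ 2) (g := (a / L / u ^ 152) ^ 2) (by positivity) (by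
      rw [eu, ea]; field_simp)
  have w2 := F4_win (hw 323 (by norm_num)).1 (hw 323 (by norm_num)).2 hx9 hx1
    (c := (A / L / uA ^ 160) ^ 2 / uA ^ 3) (g := (a / L / u ^ 160) ^ 2 / u ^ 3) (by positivity) (by
      rw [eu, ea]; field_simp)
  have w3 := F4_win (hw 320 (by norm_num)).1 (hw 320 (by norm_num)).2 hx9 hx1
    (c := (A / L / uA ^ 160) ^ 2) (g := (a / L / u ^ 160) ^ 2) (by positivity) (by
      rw [eu, ea]; field_simp)
  have h161 : uA ^ 161 ≤ 2 * u ^ 161 := by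
    rw [eu, mul_pow]
    have h1 := (hw 161 (by norm_num)).1
    have h2 : 0 < uA ^ 161 := by positivity
    have h3 := mul_le_mul_of_nonneg_right h1 h2.le
    linarith only [h3]
  have hloc := (hM2 (TT N L ψ) hadm hmin' _ _ _ w1.1 w1.2 w2.1 w2.2 w3.1).F4_change hC.le
    (by positivity) hu0 huuA h161
  -- the torus theorem
  have hreg : RegO (2 * R / A) (2 * C) c u (fun t => L ^ 2 * W (L * t)) _ _ (R₀ / L) (R / L) (a / L)
      (Vp m L v) (TT N L ψ) :=
    { sc := h.scale hL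
      Na := by
        rw [show u ^ 320 = (u ^ 160) ^ 2 by ring, hu, hY2, ← hL3, div_pow]
        field_simp
      Rle := by
        rw [← mul_div_assoc]
        refine div_le_div_of_nonneg_right ?_ hL.le
        rw [div_mul_eq_mul_div, le_div_iff₀ hA0]
        linarith only [mul_le_mul_of_nonneg_left hA2a hRpos.le]
      V_meas := (aem_vper hL hvm).const_mul _
      V_top := hV2
      V_ge := hV1
      V_int := by
        refine hV3.trans (ENNReal.ofReal_le_ofReal ?_)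
        rw [hu]
        have h1 : A / 2 ≤ a := by linarith
        calc 2 * sig / L * (c * (A / 2) * (YA / 2) / (2 * sig))
            = c * ((A / 2) * (YA / 2)) / L := by field_simp
          _ ≤ c * (a * Y) / L := by gcongr
          _ = c * (a / L * Y) := by ring
      adm := hadm
      min := hmin'
      loc := hloc }
  -- the displacement
  obtain ⟨hfinA, hfinB⟩ := hT'' N _ _ _ _ _ _ _ _ hLa hreg
  have hAa : 1 ≤ A / a := by rwa [one_le_div ha]
  have hly : ∀ y : Fin 3 → ℝ, ∀ α, a / L / u ^ 160 * (Real.sqrt (ρ * a) • y) α = y α / L := by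
    intro y α
    rw [Pi.smul_apply, smul_eq_mul, hu, hYd]
    have e4 : Real.sqrt (ρ * a ^ 3) = a * Real.sqrt (ρ * a) := by
      rw [show ρ * a ^ 3 = a ^ 2 * (ρ * a) by ring, Real.sqrt_mul (by positivity),
        Real.sqrt_sq ha.le]
    have hsa : 0 < Real.sqrt (ρ * a) := Real.sqrt_pos.2 (by positivity)
    rw [e4]
    field_simp
  refine ⟨fun y hy => ?_, fun y => ?_⟩
  swap
  · have hsa : 0 < Real.sqrt (ρ * a) := Real.sqrt_pos.2 (by positivity)
    have h1 := hfinB (Real.sqrt (ρ * a) • y)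
    rw [exF_eq hL hψ.1.1 (hly y)]
    rw [nr_smul hsa.le, mul_pow, Real.sq_sqrt (by positivity : 0 ≤ ρ * a), ← div_div,
      div_le_iff₀ (by positivity : 0 < u ^ 160)] at h1
    refine h1.trans ?_
    rw [hu]
    have h2 : ρ * a * nr y ^ 2 / (4 * b) ≤ ρ * A * nr y ^ 2 / (4 * b) :=
      div_le_div_of_nonneg_right (mul_le_mul_of_nonneg_right
        (mul_le_mul_of_nonneg_left haA hρ.le) (sq_nonneg _)) (by positivity)
    have h3 : max 1 (ρ * a * nr y ^ 2 / (4 * b)) ≤ max 1 (ρ * A * nr y ^ 2 / (4 * b)) :=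
      max_le_max le_rfl h2
    have hpi := Real.pi_pos
    have h4 : 0 ≤ 8 / (3 * Real.sqrt Real.pi) := by positivity
    have h5 : (1:ℝ) ≤ max 1 (ρ * A * nr y ^ 2 / (4 * b)) := le_max_left _ _
    refine mul_le_mul ?_ hr2 hY.le (by positivity)
    refine mul_le_mul (by linarith) (by linarith) (by positivity) (by linarith)
  set η : Fin 3 → ℝ := Real.sqrt (ρ * A) • y with hη
  set y' : Fin 3 → ℝ := Real.sqrt (ρ * a) • y with hy'
  have hsa : 0 < Real.sqrt (ρ * a) := Real.sqrt_pos.2 (by positivity)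
  have hsA : 0 < Real.sqrt (ρ * A) := Real.sqrt_pos.2 (by positivity)
  have hsaA : Real.sqrt (ρ * a) ≤ Real.sqrt (ρ * A) :=
    Real.sqrt_le_sqrt (mul_le_mul_of_nonneg_left haA hρ.le)
  have hnη : nr η ≤ D := by
    rw [hη, nr_smul hsA.le, mul_comm]
    exact hy
  have hny : nr y' ≤ D := by
    rw [hy', nr_smul hsa.le]
    refine le_trans ?_ hnη
    rw [hη, nr_smul hsA.le]
    exact mul_le_mul_of_nonneg_right hsaA (nr_nonneg y)
  have hratio : (1 - δ) * Real.sqrt (ρ * A) ≤ Real.sqrt (ρ * a) := by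
    refine Real.le_sqrt_of_sq_le ?_
    rw [mul_pow, Real.sq_sqrt (by positivity)]
    have h1 : (1 - δ) ^ 2 ≤ 1 - δ := by nlinarith
    calc (1 - δ) ^ 2 * (ρ * A) ≤ (1 - δ) * (ρ * A) :=
          mul_le_mul_of_nonneg_right h1 (by positivity)
      _ = ρ * ((1 - δ) * A) := by ring
      _ ≤ ρ * a := mul_le_mul_of_nonneg_left haA' hρ.le
  have hdist : dist y' η < δc := by
    refine lt_of_le_of_lt ?_ hδ3
    rw [dist_comm, dist_eq_norm]
    have e : η - y' = (Real.sqrt (ρ * A) - Real.sqrt (ρ * a)) • y := by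
      rw [hη, hy', sub_smul]
    rw [e, norm_smul, Real.norm_eq_abs, abs_of_nonneg (by linarith)]
    have h1 : ‖y‖ ≤ nr y := norm_le_nr y
    have h2 : Real.sqrt (ρ * A) - Real.sqrt (ρ * a) ≤ δ * Real.sqrt (ρ * A) := by linarith
    calc (Real.sqrt (ρ * A) - Real.sqrt (ρ * a)) * ‖y‖ ≤ (δ * Real.sqrt (ρ * A)) * nr y :=
          mul_le_mul h2 h1 (norm_nonneg _) (by positivity)
      _ = δ * (nr y * Real.sqrt (ρ * A)) := by ring
      _ ≤ δ * D := mul_le_mul_of_nonneg_left hy hδ0.le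
  have hfin := hfinA y' hny
  have hcos := hcont y' hny η hnη hdist
  rw [Real.dist_eq] at hcos
  rw [exF_eq hL hψ.1.1 (hly y)]
  have hfin2 : |Dw y' (a / L / u ^ 160) (TT N L ψ) / N / Y - G3 y'| ≤ ε / 4 := by
    rw [div_div, ← hu]
    exact hfin
  have hend := F4_end hY hYA hr1 hr2 hδ0.le (G3_nonneg y') (G3_le_two y') hfin2
    (Cs := ε / 8 / (2 * δ)) (s := G3 η) (by
      have e5 : ε / 8 / (2 * δ) * (2 * δ) = ε / 8 := by field_simp
      rw [e5]
      exact hcos.le)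
  refine hend.trans (mul_le_mul_of_nonneg_right ?_ hYA.le)
  have e6 : 2 * (ε / 8 / (2 * δ)) * δ = ε / 8 := by field_simp
  rw [e6]
  linarith

end Pool.Agent.Lib.MP_4952d6_mp.O
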