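import Pool.Agent.Lib.MP_4952d6_mp.Pd.D06

/-!
# Density matrix: the one particle density matrix in position space
-/

set_option autoImplicit false
set_option linter.unusedSectionVars false
set_option linter.unusedVariables false
open MeasureTheory Function Filter Topology Set ComplexConjugate
open scoped ENNReal

namespace Pool.Agent.Lib.MP_4952d6_mp.O

/-- The configuration `x` with particle `i` displaced by `y` in the periodic box of side `L`. -/
noncomputable def displace (L : ℝ) {N : ℕ} (i : Fin N) (y : Fin 3 → ℝ) (x : Fin N → Fin 3 → ℝ) :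
    Fin N → Fin 3 → ℝ :=
  Function.update x i (fun α => L * Int.fract ((x i α + y α) / L))

/-- The one particle density matrix over the density, at displacement `y` (translation average, real
part): `(1/N) ∑ᵢ Re ∫ conj ψ(x) ψ(x₁, .., xᵢ + y, .., x_N) dx`. -/
noncomputable def densityMatrix (N : ℕ) (L : ℝ) (ψ : (Fin N → Fin 3 → ℝ) → ℂ) (y : Fin 3 → ℝ) : ℝ :=
  (1 / (N : ℝ)) * ∑ i : Fin N, (∫ x in box N L, conj (ψ x) * ψ (displace L i y x)).re

lemma rep_fract (t : ℝ) : rep (t : UnitAddCircle) = Int.fract t := by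
  have h : ((t : ℝ) : UnitAddCircle) = ((Int.fract t : ℝ) : UnitAddCircle) := by
    rw [← sub_eq_zero, ← AddCircle.coe_sub, AddCircle.coe_eq_zero_iff]
    refine ⟨⌊t⌋, ?_⟩
    rw [zsmul_eq_mul, mul_one]
    unfold Int.fract
    ring
  rw [h]
  exact rep_coe ⟨Int.fract_nonneg t, Int.fract_lt_one t⟩

/-- The displacement on the torus. -/
noncomputable def dsp (L : ℝ) {N : ℕ} (i : Fin N) (y : Fin 3 → ℝ) : Fin N → T3 :=
  Pi.single i (fun α => ((y α / L : ℝ) : UnitAddCircle))

lemma displace_toB {N : ℕ} {L : ℝ} (hL : 0 < L) (i : Fin N) (y : Fin 3 → ℝ) (z : Fin N → T3) :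
    displace L i y (toB N L z) = toB N L (z + dsp L i y) := by
  funext j β
  unfold displace dsp
  rcases eq_or_ne j i with h | h
  · subst h
    rw [Function.update_self]
    unfold toB
    rw [Pi.add_apply, Pi.single_eq_same, Pi.add_apply]
    have e : z j β + ((y β / L : ℝ) : UnitAddCircle) = ((rep (z j β) + y β / L : ℝ) : UnitAddCircle) := by
      rw [AddCircle.coe_add, coe_rep]
    rw [e, rep_fract]
    congr 2
    field_simp
  · rw [Function.update_of_ne h]
    unfold toB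
    rw [Pi.add_apply, Pi.single_eq_of_ne h, add_zero]

lemma mp_add {N : ℕ} (c : Fin N → T3) :
    MeasurePreserving (fun x : Fin N → T3 => x + c) (piN (Fin N)) (piN (Fin N)) := by
  have := borel_config (Fin N)
  have := piN_haar (Fin N)
  exact measurePreserving_add_right (piN (Fin N)) c

lemma fc_translate {N : ℕ} {φ : (Fin N → T3) → ℂ} (c : Fin N → T3) (k : Fin N → Fin 3 → ℤ) :
    fc (fun x => φ (x + c)) k = chN k c * fc φ k := by
  have hb := borel_config (Fin N)
  have hh := piN_haar (Fin N)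
  unfold fc
  have e : ∀ x : Fin N → T3, conj (chN k x) * φ (x + c)
      = chN k c * (conj (chN k (x + c)) * φ (x + c)) := by
    intro x
    rw [chN_add_arg, map_mul]
    have h := conj_chN_mul_self k c
    calc conj (chN k x) * φ (x + c) = conj (chN k x) * φ (x + c) * (conj (chN k c) * chN k c) := by
          rw [h, mul_one]
      _ = _ := by ring
  rw [integral_congr_ae (Eventually.of_forall e), integral_const_mul]
  congr 1
  exact integral_add_right_eq_self (μ := piN (Fin N)) (fun x => conj (chN k x) * φ x) c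

lemma ch_real (p : Fin 3 → ℤ) (u : Fin 3 → ℝ) :
    ch p (fun α => ((u α : ℝ) : UnitAddCircle))
      = Complex.exp (((2 * Real.pi * ∑ α, (p α : ℝ) * u α : ℝ) : ℂ) * Complex.I) := by
  simp only [ch, UnitAddTorus.mFourier, ContinuousMap.coe_mk, fourier_coe_apply]
  rw [← Complex.exp_sum]
  congr 1
  push_cast
  rw [Finset.mul_sum, Finset.sum_mul]
  refine Finset.sum_congr rfl fun α _ => ?_
  ring

lemma chN_dsp_re {N : ℕ} {L : ℝ} (hL : 0 < L) (i : Fin N) (y : Fin 3 → ℝ)
    (k : Fin N → Fin 3 → ℤ) :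
    (chN k (dsp L i y)).re = Real.cos ((2 * Real.pi / L) * ∑ α, (k i α : ℝ) * y α) := by
  unfold dsp
  rw [chN_single, ch_real, Complex.exp_ofReal_mul_I_re]
  congr 1
  rw [Finset.mul_sum, Finset.mul_sum]
  refine Finset.sum_congr rfl fun α _ => ?_
  field_simp

lemma dsp_hasSum {N : ℕ} {L : ℝ} (hL : 0 < L) (i : Fin N) (y : Fin 3 → ℝ)
    {φ : (Fin N → T3) → ℂ} (hφ : MemLp φ 2 (piN (Fin N))) :
    HasSum (fun k => Real.cos ((2 * Real.pi / L) * ∑ α, (k i α : ℝ) * y α) * ‖fc φ k‖ ^ 2)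
      (∫ x, conj (φ x) * φ (x + dsp L i y) ∂(piN (Fin N))).re := by
  have h := Complex.hasSum_re (parseval hφ (hφ.comp_measurePreserving (mp_add (dsp L i y))))
  have e : (fun k : Fin N → Fin 3 → ℤ => (conj (fc φ k) * fc (φ ∘ fun x => x + dsp L i y) k).re)
      = fun k => Real.cos ((2 * Real.pi / L) * ∑ α, (k i α : ℝ) * y α) * ‖fc φ k‖ ^ 2 := by
    funext k
    have h1 : fc (φ ∘ fun x => x + dsp L i y) k = chN k (dsp L i y) * fc φ k :=
      fc_translate (φ := φ) (dsp L i y) k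
    rw [h1]
    have h2 : conj (fc φ k) * (chN k (dsp L i y) * fc φ k)
        = ((‖fc φ k‖ ^ 2 : ℝ) : ℂ) * chN k (dsp L i y) := by
      have h3 : conj (fc φ k) * fc φ k = ((‖fc φ k‖ ^ 2 : ℝ) : ℂ) := by
        rw [mul_comm, Complex.mul_conj, Complex.normSq_eq_norm_sq]
      rw [← h3]
      ring
    rw [h2, Complex.re_ofReal_mul, chN_dsp_re hL, mul_comm]
  rw [e] at h
  exact h

lemma box_integral {N : ℕ} {L : ℝ} (hL : 0 < L) (i : Fin N) (y : Fin 3 → ℝ)
    {ψ : (Fin N → Fin 3 → ℝ) → ℂ} (hψ : MemLp ψ 2 (volume.restrict (box N L))) :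
    ∫ x in box N L, conj (ψ x) * ψ (displace L i y x)
      = ∫ z, conj (TT N L ψ z) * TT N L ψ (z + dsp L i y) ∂(piN (Fin N)) := by
  have hm : AEStronglyMeasurable ψ (PB N L) := hψ.1.mono_ac (PB_ac N L)
  have hmp : MeasurePreserving (fun x : Fin N → Fin 3 → ℝ => toB N L (toT N L x + dsp L i y))
      (PB N L) (PB N L) := ((mp_toB hL).comp (mp_add (dsp L i y))).comp (mp_toT hL)
  have h1 : AEStronglyMeasurable (fun x => ψ (toB N L (toT N L x + dsp L i y))) (PB N L) :=
    hm.comp_measurePreserving hmp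
  have h2 : (fun x => ψ (toB N L (toT N L x + dsp L i y))) =ᵐ[PB N L]
      fun x => ψ (displace L i y x) := by
    have h3 : ∀ᵐ x ∂(PB N L), x ∈ box N L :=
      (PB_ac N L).ae_le (ae_restrict_mem (measurableSet_box N L))
    filter_upwards [h3] with x hx
    rw [← displace_toB hL, toB_toT hL hx]
  have h4 : AEStronglyMeasurable (fun x => ψ (displace L i y x)) (PB N L) := h1.congr h2
  have hF : AEStronglyMeasurable (fun x => conj (ψ x) * ψ (displace L i y x)) (PB N L) :=
    (Complex.continuous_conj.comp_aestronglyMeasurable hm).mul h4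
  rw [setIntegral_box hL hF, ← integral_smul]
  refine integral_congr_ae (Eventually.of_forall fun z => ?_)
  dsimp only
  rw [displace_toB hL]
  simp only [TT, map_mul, Complex.conj_ofReal, Complex.real_smul]
  have e : ((L ^ (3 * N) : ℝ) : ℂ) = ((Real.sqrt (L ^ (3 * N)) : ℝ) : ℂ)
      * ((Real.sqrt (L ^ (3 * N)) : ℝ) : ℂ) := by
    rw [← Complex.ofReal_mul, Real.mul_self_sqrt (by positivity)]
  rw [e]
  ring

/-- The density matrix in terms of the momenta. -/
theorem densityMatrix_eq {N : ℕ} {L : ℝ} (hN : 1 ≤ N) (hL : 0 < L) (y : Fin 3 → ℝ)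
    {ψ : (Fin N → Fin 3 → ℝ) → ℂ} (hψ : MemLp ψ 2 (volume.restrict (box N L)))
    (h1 : ∫ x in box N L, ‖ψ x‖ ^ 2 = 1) :
    densityMatrix N L ψ y = 1 - 2 * exF N L y ψ := by
  have hφ := memLp_TT hL hψ
  have hnorm : ∫ z, ‖TT N L ψ z‖ ^ 2 ∂(piN (Fin N)) = 1 := by rw [← norm_TT hL hψ.1, h1]
  have hN0 : (0:ℝ) < N := by exact_mod_cast hN
  have hp := parseval_sq hφ
  rw [hnorm] at hp
  unfold densityMatrix exF
  have hi : ∀ i : Fin N, (∫ x in box N L, conj (ψ x) * ψ (displace L i y x)).re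
      = 1 - 2 * ∑' k : Fin N → Fin 3 → ℤ,
        (1 - Real.cos ((2 * Real.pi / L) * ∑ α, (k i α : ℝ) * y α)) / 2 * ‖fourierC N L ψ k‖ ^ 2 := by
    intro i
    have h2 := dsp_hasSum hL i y hφ
    rw [box_integral hL i y hψ]
    have h3 := (hp.sub h2).tsum_eq
    simp_rw [fourierC_eq hL hψ.1]
    have h4 : ∑' k : Fin N → Fin 3 → ℤ,
        (1 - Real.cos ((2 * Real.pi / L) * ∑ α, (k i α : ℝ) * y α)) / 2 * ‖fc (TT N L ψ) k‖ ^ 2
        = 1 / 2 * ∑' k : Fin N → Fin 3 → ℤ, (‖fc (TT N L ψ) k‖ ^ 2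
          - Real.cos ((2 * Real.pi / L) * ∑ α, (k i α : ℝ) * y α) * ‖fc (TT N L ψ) k‖ ^ 2) := by
      rw [← tsum_mul_left]
      exact tsum_congr fun k => by ring
    rw [h4, h3]
    ring
  rw [Finset.sum_congr rfl fun i _ => hi i, Finset.sum_sub_distrib, Finset.sum_const,
    Finset.card_univ, Fintype.card_fin, nsmul_eq_mul, mul_one, ← Finset.mul_sum]
  field_simp

end Pool.Agent.Lib.MP_4952d6_mp.O
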