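import Pool.Agent.Lib.MP_4952d6_mp.Pd.D07
import Pool.Agent.Lib.MP_4952d6_mp.Po.N34

/-!
# Density matrix: large displacements and the final form
-/

set_option autoImplicit false
set_option linter.unusedSectionVars false
set_option linter.unusedVariables false
open MeasureTheory Function Filter Topology Set ComplexConjugate
open scoped ENNReal FourierTransform RealInnerProductSpace

namespace Pool.Agent.Lib.MP_4952d6_mp.O

lemma cosJ_integrable (y : Fin 3 → ℝ) :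
    Integrable (fun x : Fin 3 → ℝ => Real.cos (∑ α, x α * y α) * Jgd (nr x ^ 2)) := by
  have hc : Continuous fun x : Fin 3 → ℝ => Real.cos (∑ α, x α * y α) := by fun_prop
  refine Jnr_integrable.bdd_mul (c := 1) hc.aestronglyMeasurable (Eventually.of_forall fun x => ?_)
  rw [Real.norm_eq_abs]
  exact Real.abs_cos_le_one _

lemma G3_eq (y : Fin 3 → ℝ) : 2 * G3 y = 8 / (3 * Real.sqrt Real.pi)
    - 1 / (16 * Real.pi ^ 3) * ∫ x : Fin 3 → ℝ, Real.cos (∑ α, x α * y α) * Jgd (nr x ^ 2) := by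
  rw [← Jnr_integral, ← mul_sub, ← integral_sub Jnr_integrable (cosJ_integrable y)]
  unfold G3
  rw [← mul_assoc, mul_comm 2, mul_assoc, ← integral_const_mul]
  congr 2
  funext x
  unfold wj wv
  ring

lemma cosJ_fourier (y : Fin 3 → ℝ) :
    ∫ x : Fin 3 → ℝ, Real.cos (∑ α, x α * y α) * Jgd (nr x ^ 2)
      = (∫ v : EuclideanSpace ℝ (Fin 3),
          (𝐞 (-⟪v, (WithLp.toLp 2 ((2 * Real.pi)⁻¹ • y) : EuclideanSpace ℝ (Fin 3))⟫))
            • ((Jgd (‖v‖ ^ 2) : ℝ) : ℂ)).re := by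
  have hpi := Real.pi_pos
  set w : EuclideanSpace ℝ (Fin 3) := WithLp.toLp 2 ((2 * Real.pi)⁻¹ • y) with hw
  have h7 : ∫ x : Fin 3 → ℝ, (𝐞 (-⟪(WithLp.toLp 2 x : EuclideanSpace ℝ (Fin 3)), w⟫))
        • ((Jgd (‖(WithLp.toLp 2 x : EuclideanSpace ℝ (Fin 3))‖ ^ 2) : ℝ) : ℂ)
      = ∫ v : EuclideanSpace ℝ (Fin 3), (𝐞 (-⟪v, w⟫)) • ((Jgd (‖v‖ ^ 2) : ℝ) : ℂ) :=
    (PiLp.volume_preserving_toLp (Fin 3)).integral_comp
      (MeasurableEquiv.toLp 2 (Fin 3 → ℝ)).measurableEmbedding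
      (fun v : EuclideanSpace ℝ (Fin 3) => (𝐞 (-⟪v, w⟫)) • ((Jgd (‖v‖ ^ 2) : ℝ) : ℂ))
  rw [← h7]
  have hp : ∀ x : Fin 3 → ℝ, (𝐞 (-⟪(WithLp.toLp 2 x : EuclideanSpace ℝ (Fin 3)), w⟫))
        • ((Jgd (‖(WithLp.toLp 2 x : EuclideanSpace ℝ (Fin 3))‖ ^ 2) : ℝ) : ℂ)
      = Complex.exp (((-(∑ α, x α * y α) : ℝ) : ℂ) * Complex.I) * ((Jgd (nr x ^ 2) : ℝ) : ℂ) := by
    intro x
    rw [Circle.smul_def, Real.fourierChar_apply, ← nr_eq, smul_eq_mul]
    congr 3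
    have h1 : ⟪(WithLp.toLp 2 x : EuclideanSpace ℝ (Fin 3)), w⟫ = (2 * Real.pi)⁻¹ * ∑ α, x α * y α := by
      rw [hw, PiLp.inner_apply, Finset.mul_sum]
      refine Finset.sum_congr rfl fun α _ => ?_
      simp only [Pi.smul_apply, smul_eq_mul, RCLike.inner_apply, conj_trivial]
      ring
    rw [h1]
    push_cast
    field_simp
  rw [integral_congr_ae (Eventually.of_forall hp)]
  have hi : Integrable fun x : Fin 3 → ℝ =>
      Complex.exp (((-(∑ α, x α * y α) : ℝ) : ℂ) * Complex.I) * ((Jgd (nr x ^ 2) : ℝ) : ℂ) := by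
    have hc : Continuous fun x : Fin 3 → ℝ =>
        Complex.exp (((-(∑ α, x α * y α) : ℝ) : ℂ) * Complex.I) := by fun_prop
    refine (Jnr_integrable.ofReal (𝕜 := ℂ)).bdd_mul (c := 1) hc.aestronglyMeasurable
      (Eventually.of_forall fun x => ?_)
    rw [Complex.norm_exp_ofReal_mul_I]
  have h8 := integral_re hi
  simp only [RCLike.re_eq_complex_re] at h8
  rw [← h8]
  refine integral_congr_ae (Eventually.of_forall fun x => ?_)
  dsimp only
  rw [Complex.re_mul_ofReal, Complex.exp_ofReal_mul_I_re, Real.cos_neg]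

/-- Riemann-Lebesgue. -/
theorem G3_far {ε : ℝ} (hε : 0 < ε) : ∃ D₀ : ℝ, 0 < D₀ ∧ ∀ y : Fin 3 → ℝ, D₀ ≤ nr y →
    |2 * G3 y - 8 / (3 * Real.sqrt Real.pi)| ≤ ε := by
  have hpi := Real.pi_pos
  have h := tendsto_integral_exp_inner_smul_cocompact (V := EuclideanSpace ℝ (Fin 3))
    (fun v : EuclideanSpace ℝ (Fin 3) => ((Jgd (‖v‖ ^ 2) : ℝ) : ℂ))
  have h2 := Metric.tendsto_nhds.1 h ε hε
  obtain ⟨t, ht, hst⟩ := Filter.mem_cocompact'.1 h2
  obtain ⟨r, hr⟩ := ht.isBounded.subset_closedBall (0 : EuclideanSpace ℝ (Fin 3))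
  refine ⟨2 * Real.pi * (|r| + 1), by positivity, fun y hy => ?_⟩
  set w : EuclideanSpace ℝ (Fin 3) := WithLp.toLp 2 ((2 * Real.pi)⁻¹ • y) with hw
  have hwn : ‖w‖ = (2 * Real.pi)⁻¹ * nr y := by
    rw [hw, ← nr_eq, nr_smul (by positivity)]
  have hw1 : r < ‖w‖ := by
    rw [hwn, inv_mul_eq_div, lt_div_iff₀ (by positivity)]
    have h3 := le_abs_self r
    nlinarith
  have hws : w ∉ t := fun hwt => by
    have h3 := hr hwt
    rw [mem_closedBall_zero_iff] at h3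
    linarith
  have hmem : w ∈ {x | dist (∫ v : EuclideanSpace ℝ (Fin 3), 𝐞 (-⟪v, x⟫)
      • ((Jgd (‖v‖ ^ 2) : ℝ) : ℂ)) 0 < ε} := by
    by_contra hc
    exact hws (hst hc)
  have h4 : ‖∫ v : EuclideanSpace ℝ (Fin 3), 𝐞 (-⟪v, w⟫) • ((Jgd (‖v‖ ^ 2) : ℝ) : ℂ)‖ < ε := by
    have h5 := hmem
    simp only [Set.mem_ofPred_eq, dist_zero_right] at h5
    exact h5
  have h6 : |∫ x : Fin 3 → ℝ, Real.cos (∑ α, x α * y α) * Jgd (nr x ^ 2)| < ε := by
    rw [cosJ_fourier y]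
    exact (Complex.abs_re_le_norm _).trans_lt h4
  rw [G3_eq, sub_sub_cancel_left, abs_neg, abs_mul]
  have h7 : |1 / (16 * Real.pi ^ 3)| ≤ 1 := by
    rw [abs_of_pos (by positivity), div_le_one (by positivity)]
    have h8 := Real.pi_gt_three
    have h9 : (3:ℝ) ^ 3 ≤ Real.pi ^ 3 := pow_le_pow_left₀ (by norm_num) h8.le 3
    linarith
  calc |1 / (16 * Real.pi ^ 3)| * |∫ x : Fin 3 → ℝ, Real.cos (∑ α, x α * y α) * Jgd (nr x ^ 2)|
      ≤ 1 * ε := mul_le_mul h7 h6.le (abs_nonneg _) zero_le_one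
    _ = ε := one_mul ε

theorem oed_statement : OEDStatement := oed_of ustatement om_statement

/-- **Final form.** -/
theorem oed_final (m R₀ R : ℝ) (v : (Fin 3 → ℝ) → ℝ) (hm : 0 < m) (hR0 : 0 ≤ R₀)
    (hv : Integrable v) (hv0 : ∀ x, 0 ≤ v x)
    (hrad : ∀ x y : Fin 3 → ℝ, ∑ α, x α ^ 2 = ∑ α, y α ^ 2 → v x = v y)
    (hsupp' : ∀ x : Fin 3 → ℝ, R ^ 2 ≤ ∑ α, x α ^ 2 → v x = 0) (hgen : 0 < R₀ ∨ 0 < ∫ x, v x) :
    0 < scatLen m R₀ v ∧ ∀ ε : ℝ, 0 < ε →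
      ∃ ρ₁ : ℝ, 0 < ρ₁ ∧ ∀ ρ : ℝ, 0 < ρ → ρ < ρ₁ →
      ∃ N₁ : ℕ, ∀ N : ℕ, N₁ ≤ N →
        (∃ ψ : (Fin N → Fin 3 → ℝ) → ℂ, IsGround m R₀ v N (side ρ N) ψ) ∧
        ∀ ψ : (Fin N → Fin 3 → ℝ) → ℂ, IsGround m R₀ v N (side ρ N) ψ → ∀ y : Fin 3 → ℝ,
          |densityMatrix N (side ρ N) ψ y
            - (1 - 2 * G3 (Real.sqrt (ρ * scatLen m R₀ v) • y) * Real.sqrt (ρ * scatLen m R₀ v ^ 3))|
            ≤ ε * (1 + ρ * scatLen m R₀ v * ∑ α, y α ^ 2) * Real.sqrt (ρ * scatLen m R₀ v ^ 3) := by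
  have hpi := Real.pi_pos
  obtain ⟨R', hR, hsupp⟩ : ∃ R' : ℝ, R₀ < R' ∧ ∀ x : Fin 3 → ℝ, R' ^ 2 ≤ ∑ α, x α ^ 2 → v x = 0 :=
    ⟨|R| + R₀ + 1, by linarith [abs_nonneg R], fun x hx => hsupp' x (le_trans (by
      rw [← sq_abs R]
      exact pow_le_pow_left₀ (abs_nonneg R) (by linarith) 2) hx)⟩
  obtain ⟨hA0, -⟩ := F4_trunc hm hR0 hR hv hv0 hrad hsupp hgen
  obtain ⟨ρa, hρa, hadm⟩ := FG_adm ustatement hm hR0 hR hv hv0 hrad hsupp hgen
  have hO' := oed_statement m R₀ R' v hm hR0 hR hv hv0 hrad hsupp hgen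
  refine ⟨hA0, fun ε hε => ?_⟩
  have hkap : 8 / (3 * Real.sqrt Real.pi) ≤ 161 / 100 := by
    have h0 : (5 / 3 : ℝ) ≤ Real.sqrt Real.pi := by
      refine Real.le_sqrt_of_sq_le ?_
      have := Real.pi_gt_d2
      linarith
    rw [div_le_iff₀ (by positivity)]
    linarith
  set e' : ℝ := min (ε / 4) (1 / 4) with he'
  have he0 : 0 < e' := lt_min (by positivity) (by norm_num)
  have he1 : e' ≤ ε / 4 := min_le_left _ _
  have he2 : e' ≤ 1 / 4 := min_le_right _ _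
  set D : ℝ := 16 / ε + 1 with hD
  have hD1 : 1 ≤ D := by
    have : 0 < 16 / ε := by positivity
    linarith
  have hDε : 16 ≤ ε * D := by
    have : ε * D = 16 + ε := by rw [hD]; field_simp
    linarith
  obtain ⟨ρ₁, hρ₁, h⟩ := hO' D e' (4 / ε) (by linarith) he0 (by positivity)
  refine ⟨min ρ₁ ρa, lt_min hρ₁ hρa, fun ρ hρ hlt => ?_⟩
  obtain ⟨N₁, hN₁⟩ := h ρ hρ (hlt.trans_le (min_le_left _ _))
  obtain ⟨N₂, hN₂⟩ := hadm ρ hρ (hlt.trans_le (min_le_right _ _))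
  refine ⟨max N₁ N₂, fun N hN => ⟨?_, fun ψ hψ y => ?_⟩⟩
  · obtain ⟨hL, -, hφ⟩ := hN₂ N ((le_max_right _ _).trans hN)
    obtain ⟨ψ, h1, h2⟩ := M.exists_ground hm hL hR0 hv.aestronglyMeasurable.aemeasurable hφ
    exact ⟨ψ, h1, h2⟩
  · obtain ⟨hL, hN1, -⟩ := hN₂ N ((le_max_right _ _).trans hN)
    obtain ⟨h1', h1B⟩ := hN₁ N ((le_max_left _ _).trans hN) ψ hψ.1 hψ.2
    rw [densityMatrix_eq hN1 hL y hψ.1.1 hψ.1.2.1]
    have hB := h1B y
    rw [← nr_sq]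
    set Y : ℝ := Real.sqrt (ρ * scatLen m R₀ v ^ 3) with hY
    have hY0 : 0 ≤ Y := Real.sqrt_nonneg _
    set E := exF N (side ρ N) y ψ with hE
    have hs2 : Real.sqrt (ρ * scatLen m R₀ v) ^ 2 = ρ * scatLen m R₀ v :=
      Real.sq_sqrt (by positivity)
    set s := Real.sqrt (ρ * scatLen m R₀ v) with hs
    have hs0 : 0 ≤ s := Real.sqrt_nonneg _
    set g := G3 (s • y) with hg
    have hg0 : 0 ≤ g := G3_nonneg _
    have hg2 : g ≤ 2 := G3_le_two _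
    have e : 1 - 2 * E - (1 - 2 * g * Y) = -(2 * (E - g * Y)) := by ring
    rw [e, abs_neg, abs_mul, abs_of_pos (by norm_num : (0:ℝ) < 2)]
    set X : ℝ := ρ * scatLen m R₀ v * nr y ^ 2 with hX
    have hX0 : 0 ≤ X := by
      have := nr_nonneg y
      positivity
    rcases le_total (nr y * s) D with hy | hy
    · have h1 := h1' y hy
      have h2 : e' * Y ≤ ε / 4 * Y := mul_le_mul_of_nonneg_right he1 hY0
      have h3 : 0 ≤ ε * X * Y := by positivity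
      have h4 : 0 ≤ ε * Y := by positivity
      linarith
    · have hXD : D ^ 2 ≤ X := by
        have h1 : (nr y * s) ^ 2 = X := by
          rw [mul_pow, hs2, hX]
          ring
        rw [← h1]
        exact pow_le_pow_left₀ (by linarith) hy 2
      have hXε : 16 ≤ ε * X := by
        have h1 : D ≤ D ^ 2 := by nlinarith
        have h2 : ε * D ≤ ε * X := mul_le_mul_of_nonneg_left (h1.trans hXD) hε.le
        linarith
      have h7 : X / (4 * (4 / ε)) = ε * X / 16 := by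
        have h7a : (4 * (4 / ε)) = 16 / ε := by ring
        rw [h7a, div_div_eq_mul_div, mul_comm]
      have h8 : 2 * max 1 (X / (4 * (4 / ε))) * (8 / (3 * Real.sqrt Real.pi) + e')
          ≤ 2 * (ε * X / 16) * 2 := by
        rw [h7, max_eq_right (by linarith)]
        have h9 : 0 ≤ 8 / (3 * Real.sqrt Real.pi) := by positivity
        have h10 : 0 ≤ ε * X := by positivity
        refine mul_le_mul le_rfl (by linarith) (by linarith) (by linarith)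
      have h9 := mul_le_mul_of_nonneg_right h8 hY0
      have h10 := hB.trans h9
      have hE0 : 0 ≤ E := by
        rw [hE]
        unfold exF
        refine mul_nonneg (by positivity) (Finset.sum_nonneg fun i _ => tsum_nonneg fun k =>
          mul_nonneg ?_ (sq_nonneg _))
        have := Real.cos_le_one ((2 * Real.pi / side ρ N) * ∑ α, (k i α : ℝ) * y α)
        linarith
      have h11 : g * Y ≤ 2 * Y := mul_le_mul_of_nonneg_right hg2 hY0
      have h12 : 0 ≤ g * Y := mul_nonneg hg0 hY0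
      have h13 : 16 * Y ≤ ε * X * Y := mul_le_mul_of_nonneg_right hXε hY0
      have h14 : 0 ≤ ε * Y := by positivity
      have h15 : |E - g * Y| ≤ ε * X / 4 * Y := by
        rw [abs_le]
        constructor
        · linarith
        · linarith
      linarith

end Pool.Agent.Lib.MP_4952d6_mp.O
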